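import Pool.Agent.Lib.MP_c132d1_al.Graded

/-!
The Koszul complex as a projective resolution of the residue field.
-/

set_option linter.unusedSectionVars false

namespace Pool.Agent.MPc132d1

open Finset MvPolynomial CategoryTheory

universe u

variable (ι : Type) [Fintype ι] [LinearOrder ι] (k : Type u) [Field k]

/-- The ideal generated by the variables. -/
noncomputable abbrev maxIdeal : Ideal (MvPolynomial ι k) := Ideal.span (Set.range X)

/-- The Koszul complex of the variables. -/
noncomputable def Kcx : ChainComplex (ModuleCat.{u} (MvPolynomial ι k)) ℕ :=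
  ChainComplex.of (fun j => ModuleCat.of (MvPolynomial ι k) (Sub ι j → MvPolynomial ι k))
    (fun j => ModuleCat.ofHom (dk (xm k (MvPolynomial ι k)) j))
    (fun j => by
      ext1
      apply LinearMap.ext
      intro f
      exact dk_dk _ (xm_comm _) j f)

/-- augmentation -/
noncomputable def aug : (Sub ι 0 → MvPolynomial ι k) →ₗ[MvPolynomial ι k]
    (MvPolynomial ι k ⧸ maxIdeal ι k) :=
  (maxIdeal ι k).mkQ ∘ₗ LinearMap.proj ⟨∅, Finset.card_empty⟩

lemma Kcx_d (j : ℕ) : (Kcx ι k).d (j + 1) j =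
    ModuleCat.ofHom (dk (xm k (MvPolynomial ι k)) j) := by
  simp [Kcx]

lemma aug_dk (f : Sub ι 1 → MvPolynomial ι k) :
    aug ι k (dk (xm k (MvPolynomial ι k)) 0 f) = 0 := by
  show (maxIdeal ι k).mkQ (dk (xm k (MvPolynomial ι k)) 0 f ⟨∅, Finset.card_empty⟩) = 0
  rw [Submodule.mkQ_apply, Submodule.Quotient.mk_eq_zero, dk_apply, D_apply]
  refine sum_mem fun i _ => ?_
  rw [xm_apply, smul_eq_mul]
  apply zsmul_mem
  rw [mul_comm]
  exact Ideal.mul_mem_left _ _ (Ideal.subset_span ⟨i, rfl⟩)

lemma range_dk_zero : LinearMap.range (dk (xm k (MvPolynomial ι k)) 0) =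
    LinearMap.ker (aug ι k) := by
  apply le_antisymm
  · rintro _ ⟨f, rfl⟩
    exact aug_dk ι k f
  · intro f hf
    have hf' : f ⟨∅, Finset.card_empty⟩ ∈ maxIdeal ι k := by
      rw [← Submodule.Quotient.mk_eq_zero]; exact hf
    obtain ⟨g, hg1, hg2⟩ := exact_zero (f ⟨∅, Finset.card_empty⟩) hf'
    refine ⟨res (MvPolynomial ι k) 1 g, ?_⟩
    funext U
    obtain ⟨U, hU⟩ := U
    have : U = ∅ := Finset.card_eq_zero.mp hU
    subst this
    rw [dk_apply, ext_res 1 hg1]
    exact hg2

lemma range_dk_succ (j : ℕ) : LinearMap.range (dk (xm (ι := ι) k (MvPolynomial ι k)) (j + 1)) =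
    LinearMap.ker (dk (xm (ι := ι) k (MvPolynomial ι k)) j) := by
  apply le_antisymm
  · rintro _ ⟨f, rfl⟩
    exact dk_dk (xm k (MvPolynomial ι k)) (xm_comm (ι := ι) (k := k) (MvPolynomial ι k)) j f
  · intro f hf
    rw [LinearMap.mem_ker, dk_eq_zero_iff] at hf
    obtain ⟨g, hg1, hg2⟩ := exact_pos j _ (ext_hom (j + 1) f) hf
    refine ⟨res (MvPolynomial ι k) (j + 2) g, ?_⟩
    apply ext_injective (A := MvPolynomial ι k)
    rw [ext_dk, ext_res _ hg1, hg2]

/-- the augmentation as a chain map -/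
noncomputable def Kπ : Kcx ι k ⟶ (ChainComplex.single₀ (ModuleCat.{u} (MvPolynomial ι k))).obj
    (ModuleCat.of (MvPolynomial ι k) (MvPolynomial ι k ⧸ maxIdeal ι k)) :=
  ((Kcx ι k).toSingle₀Equiv _).symm ⟨ModuleCat.ofHom (aug ι k), by
    rw [Kcx_d]
    ext1
    apply LinearMap.ext
    intro f
    exact aug_dk ι k f⟩

lemma Kπ_quasiIso : QuasiIso (Kπ ι k) where
  quasiIsoAt m := by
    cases m with
    | zero =>
      rw [ChainComplex.quasiIsoAt₀_iff, ShortComplex.quasiIso_iff_of_zeros' _ rfl rfl rfl]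
      constructor
      · rw [ShortComplex.moduleCat_exact_iff_range_eq_ker]
        exact range_dk_zero ι k
      · rw [ModuleCat.epi_iff_surjective]
        intro x
        obtain ⟨p, rfl⟩ := Submodule.mkQ_surjective _ x
        exact ⟨fun _ => p, rfl⟩
    | succ m =>
      rw [quasiIsoAt_iff_exactAt' (hL := ChainComplex.exactAt_succ_single_obj ..),
        HomologicalComplex.exactAt_iff' _ (m + 2) (m + 1) m (by simp) (by simp),
        ShortComplex.moduleCat_exact_iff_range_eq_ker]
      show LinearMap.range ((Kcx ι k).d (m + 2) (m + 1)).hom =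
        LinearMap.ker ((Kcx ι k).d (m + 1) m).hom
      rw [Kcx_d, Kcx_d]
      exact range_dk_succ ι k m

/-- The Koszul resolution of the residue field. -/
noncomputable def Kres : ProjectiveResolution
    (ModuleCat.of (MvPolynomial ι k) (MvPolynomial ι k ⧸ maxIdeal ι k)) where
  complex := Kcx ι k
  projective n := by
    show Projective (ModuleCat.of (MvPolynomial ι k) (Sub ι n → MvPolynomial ι k))
    infer_instance
  π := Kπ ι k
  quasiIso := Kπ_quasiIso ι k

end Pool.Agent.MPc132d1
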