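import Pool.Agent.Lib.MP_c132d1_al.Koszul

/-!
Exactness of the Koszul complex of the variables of a polynomial ring.
-/

set_option linter.unusedSectionVars false

namespace Pool.Agent.MPc132d1

open Finset MvPolynomial

variable {ι : Type} [Fintype ι] [LinearOrder ι]
variable {k : Type*} [Field k]

/-- multiplication by the variables, on a module over the polynomial ring -/
noncomputable def xm (k : Type*) [Field k] (M : Type*) [AddCommGroup M]
    [Module (MvPolynomial ι k) M] (i : ι) : M →ₗ[MvPolynomial ι k] M :=
  (X i : MvPolynomial ι k) • LinearMap.id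

lemma xm_apply (M : Type*) [AddCommGroup M] [Module (MvPolynomial ι k) M] (i : ι) (m : M) :
    xm k M i m = (X i : MvPolynomial ι k) • m := rfl

lemma xm_comm (M : Type*) [AddCommGroup M] [Module (MvPolynomial ι k) M] (i j : ι) (m : M) :
    xm k M i (xm k M j m) = xm k M j (xm k M i m) := by
  simp only [xm_apply]; rw [smul_comm]

/-- If `X a * p` lies in the ideal generated by the variables in `V`, `a ∉ V`, so does `p`. -/
lemma mem_span_of_X_mul_mem {a : ι} {V : Finset ι} (ha : a ∉ V) {p : MvPolynomial ι k}
    (h : X a * p ∈ Ideal.span (X '' (V : Set ι) : Set (MvPolynomial ι k))) :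
    p ∈ Ideal.span (X '' (V : Set ι) : Set (MvPolynomial ι k)) := by
  rw [mem_ideal_span_X_image] at h ⊢
  intro m hm
  obtain ⟨i, hi, hmi⟩ := h (m + Finsupp.single a 1) (by
    rw [mem_support_iff, add_comm, coeff_X_mul]
    exact mem_support_iff.mp hm)
  refine ⟨i, hi, ?_⟩
  have hia : i ≠ a := fun h => ha (h ▸ hi)
  rwa [Finsupp.add_apply, Finsupp.single_eq_of_ne (by exact hia), add_zero] at hmi

/-- chain supported on singletons -/
noncomputable def sing {M : Type*} [Zero M] (V : Finset ι) (u : ι → M) (T : Finset ι) : M :=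
  open Classical in
  if h : ∃ i, i ∈ V ∧ T = {i} then u h.choose else 0

lemma sing_hom {M : Type*} [AddCommGroup M] (V : Finset ι) (u : ι → M) : Hom 1 (sing V u) := by
  intro T hT
  unfold sing
  rw [dif_neg]
  rintro ⟨i, _, rfl⟩
  exact hT (Finset.card_singleton i)

lemma sing_supp {M : Type*} [AddCommGroup M] (V : Finset ι) (u : ι → M) :
    Supp V (sing V u) := by
  intro T hT
  unfold sing
  rw [dif_neg]
  rintro ⟨i, hi, rfl⟩
  exact hT (Finset.singleton_subset_iff.mpr hi)

lemma sing_apply {M : Type*} [AddCommGroup M] (V : Finset ι) (u : ι → M) (i : ι) :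
    sing V u {i} = if i ∈ V then u i else 0 := by
  unfold sing
  split_ifs with h h' h'
  · obtain ⟨h1, h2⟩ := h.choose_spec
    rw [← Finset.singleton_injective h2]
  · obtain ⟨l, hl, hl'⟩ := h
    rw [Finset.singleton_injective hl'] at h'
    exact absurd hl h'
  · exact absurd ⟨i, h', rfl⟩ h
  · rfl

lemma sgn_empty (i : ι) : sgn i (∅ : Finset ι) = 1 := by simp [sgn]

theorem exact_aux (V : Finset ι) : ∀ (j : ℕ) (f : Finset ι → MvPolynomial ι k),
    Hom (j + 1) f → Supp V f → D (xm k (MvPolynomial ι k)) f = 0 →
    ∃ g : Finset ι → MvPolynomial ι k, Hom (j + 2) g ∧ Supp V g ∧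
      D (xm k (MvPolynomial ι k)) g = f := by
  induction V using Finset.induction_on_min with
  | empty =>
    intro j f hf hs _
    refine ⟨0, fun _ _ => rfl, fun _ _ => rfl, ?_⟩
    rw [map_zero]
    funext T
    by_cases hT : T ⊆ ∅
    · rw [Finset.subset_empty.mp hT]
      exact (hf ∅ (by simp)).symm
    · exact (hs T hT).symm
  | insert a V hV IH =>
    intro j f hf hs hD
    have haV : a ∉ V := fun h => lt_irrefl _ (hV a h)
    set x : ι → MvPolynomial ι k →ₗ[MvPolynomial ι k] MvPolynomial ι k := xm k (MvPolynomial ι k) with hxdef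
    set z := part0 (A := MvPolynomial ι k) a f with hz
    set w := part1 (A := MvPolynomial ι k) a f with hw
    have hzs : Supp V z := part0_supp hs
    have hws : Supp V w := part1_supp hs
    have hzh : Hom (j + 1) z := part0_hom hf
    have hwh : Hom j w := part1_hom hf
    have hdec : f = z + W (A := MvPolynomial ι k) a w := decomp a f
    have h1 : (D x z + fun T => x a (w T)) + W (A := MvPolynomial ι k) a (-(D x w)) = 0 := by
      rw [hdec, map_add, D_W hV hws] at hD
      rw [map_neg, ← hD]; abel
    have hxw : Supp V (fun T => x a (w T)) := fun T hT => by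
      show x a (w T) = 0
      rw [hws T hT, map_zero]
    obtain ⟨h2, h3⟩ := eq_zero_of_add_W haV (u := D x z + fun T => x a (w T))
      (fun T hT => by
        show D x z T + x a (w T) = 0
        rw [D_supp hzs T hT, hws T hT, map_zero, add_zero])
      (fun T hT => by rw [Pi.neg_apply, D_supp hws T hT, neg_zero]) h1
    rw [neg_eq_zero] at h3
    -- `w` is a boundary
    have hu : ∃ u : Finset ι → MvPolynomial ι k, Hom (j + 1) u ∧ Supp V u ∧ D x u = w := by
      rcases j with _ | j
      · -- the bottom degree
        have h4 := congrFun h2 ∅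
        rw [Pi.add_apply, Pi.zero_apply, D_apply] at h4
        have hmem : w ∅ ∈ Ideal.span (X '' (V : Set ι) : Set (MvPolynomial ι k)) := by
          apply mem_span_of_X_mul_mem haV
          have h5 : X a * w ∅ = -∑ i ∈ (∅ : Finset ι)ᶜ, sgn i ∅ • x i (z (insert i ∅)) := by
            rw [← add_eq_zero_iff_neg_eq'.mp h4, neg_neg]; rfl
          rw [h5]
          refine neg_mem (sum_mem fun i _ => ?_)
          rw [sgn_empty, one_smul]
          by_cases hi : i ∈ V
          · rw [hxdef, xm_apply, smul_eq_mul, mul_comm]
            exact Ideal.mul_mem_left _ _ (Ideal.subset_span ⟨i, hi, rfl⟩)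
          · rw [hzs _ (fun h => hi (h (Finset.mem_insert_self _ _))), map_zero]
            exact zero_mem _
        rw [Ideal.span, Submodule.mem_span_image_finset_iff_exists_fun'] at hmem
        obtain ⟨u, hu⟩ := hmem
        refine ⟨sing V u, sing_hom V u, sing_supp V u, ?_⟩
        funext T
        by_cases hT : T = ∅
        · subst hT
          rw [D_apply, ← hu]
          have : ∀ i ∈ (∅ : Finset ι)ᶜ, sgn i ∅ • x i (sing V u (insert i ∅)) =
              if i ∈ V then u i • (X i : MvPolynomial ι k) else 0 := by
            intro i _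
            rw [sgn_empty, one_smul, insert_empty_eq, sing_apply]
            split_ifs
            · rw [hxdef, xm_apply, smul_eq_mul, smul_eq_mul, mul_comm]
            · rw [map_zero]
          rw [Finset.sum_congr rfl this, ← Finset.sum_filter]
          refine Finset.sum_congr ?_ fun _ _ => rfl
          ext i; simp
        · have hc : T.card ≠ 0 := fun h => hT (Finset.card_eq_zero.mp h)
          rw [D_hom (sing_hom V u) T hc, hwh T hc]
      · exact IH j w hwh hws h3
    obtain ⟨u, huh, hus, huw⟩ := hu
    -- `z + X a u` is a boundary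
    have hz' : D x (z + fun T => x a (u T)) = 0 := by
      rw [map_add]
      have : D x (fun T => x a (u T)) = fun T => x a (D x u T) := by
        funext T
        rw [D_apply, D_apply, map_sum]
        refine Finset.sum_congr rfl fun i _ => ?_
        rw [map_zsmul, xm_comm]
      rw [this, huw]
      exact h2
    obtain ⟨y, hyh, hys, hy⟩ := IH j (z + fun T => x a (u T))
      (fun T hT => by
        show z T + x a (u T) = 0
        rw [hzh T hT, huh T hT, map_zero, add_zero])
      (fun T hT => by
        show z T + x a (u T) = 0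
        rw [hzs T hT, hus T hT, map_zero, add_zero]) hz'
    refine ⟨y - W (A := MvPolynomial ι k) a u, ?_, ?_, ?_⟩
    · intro T hT
      rw [Pi.sub_apply, hyh T hT, W_hom huh T hT, sub_zero]
    · intro T hT
      have : ¬ T ⊆ V := fun h => hT (h.trans (Finset.subset_insert a V))
      rw [Pi.sub_apply, hys T this, W_supp hus T hT, sub_zero]
    · rw [map_sub, hy, D_W hV hus, huw]
      conv_rhs => rw [hdec]
      funext T
      simp only [Pi.add_apply, Pi.sub_apply]
      abel

/-- The Koszul complex of the polynomial ring is exact in positive degrees. -/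
theorem exact_pos (j : ℕ) (f : Finset ι → MvPolynomial ι k) (hf : Hom (j + 1) f)
    (hD : D (xm k (MvPolynomial ι k)) f = 0) :
    ∃ g : Finset ι → MvPolynomial ι k, Hom (j + 2) g ∧ D (xm k (MvPolynomial ι k)) g = f := by
  obtain ⟨g, h1, _, h2⟩ := exact_aux Finset.univ j f hf
    (fun T hT => absurd (Finset.subset_univ T) hT) hD
  exact ⟨g, h1, h2⟩

/-- The image in degree zero is the ideal generated by the variables. -/
theorem exact_zero (p : MvPolynomial ι k)
    (hp : p ∈ Ideal.span (Set.range X : Set (MvPolynomial ι k))) :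
    ∃ g : Finset ι → MvPolynomial ι k, Hom 1 g ∧ D (xm k (MvPolynomial ι k)) g ∅ = p := by
  have hp' : p ∈ Submodule.span (MvPolynomial ι k)
      (X '' ((Finset.univ : Finset ι) : Set ι) : Set (MvPolynomial ι k)) := by
    rw [Finset.coe_univ, Set.image_univ]; exact hp
  rw [Submodule.mem_span_image_finset_iff_exists_fun'] at hp'
  obtain ⟨u, hu⟩ := hp'
  refine ⟨sing Finset.univ u, sing_hom _ u, ?_⟩
  rw [D_apply, ← hu]
  refine Finset.sum_congr (by simp) fun i _ => ?_
  rw [sgn_empty, one_smul, insert_empty_eq, sing_apply, if_pos (Finset.mem_univ i)]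
  rw [xm_apply, smul_eq_mul, smul_eq_mul, mul_comm]

end Pool.Agent.MPc132d1
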