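import Pool.Agent.Lib.MP_c132d1_al.Exact

/-!
The graded pieces of the Koszul complex.
-/

set_option linter.unusedSectionVars false

namespace Pool.Agent.MPc132d1

open Finset

variable {ι : Type} [Fintype ι] [LinearOrder ι]

/-- subsets of cardinality `j` -/
abbrev Sub (ι : Type) (j : ℕ) := {T : Finset ι // T.card = j}

section

variable {A M : Type*} [CommRing A] [AddCommGroup M] [Module A M]

/-- extension by zero -/
def ext (A : Type*) {M : Type*} [CommRing A] [AddCommGroup M] [Module A M] (j : ℕ) :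
    (Sub ι j → M) →ₗ[A] (Finset ι → M) where
  toFun f T := if h : T.card = j then f ⟨T, h⟩ else 0
  map_add' f g := by
    funext T; simp only [Pi.add_apply]; split_ifs <;> simp
  map_smul' c f := by
    funext T; simp only [Pi.smul_apply, RingHom.id_apply]; split_ifs <;> simp

/-- restriction -/
def res (A : Type*) {M : Type*} [CommRing A] [AddCommGroup M] [Module A M] (j : ℕ) :
    (Finset ι → M) →ₗ[A] (Sub ι j → M) where
  toFun f T := f T.1
  map_add' f g := rfl
  map_smul' c f := rfl

lemma ext_apply (j : ℕ) (f : Sub ι j → M) (T : Finset ι) :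
    ext A j f T = if h : T.card = j then f ⟨T, h⟩ else 0 := rfl

lemma res_apply (j : ℕ) (f : Finset ι → M) (T : Sub ι j) : res A j f T = f T.1 := rfl

lemma res_ext (j : ℕ) (f : Sub ι j → M) : res A j (ext A j f) = f := by
  funext T
  rw [res_apply, ext_apply, dif_pos T.2]

lemma ext_hom (j : ℕ) (f : Sub ι j → M) : Hom j (ext A j f) := by
  intro T hT
  rw [ext_apply, dif_neg hT]

lemma ext_res (j : ℕ) {f : Finset ι → M} (hf : Hom j f) : ext A j (res A j f) = f := by
  funext T
  rw [ext_apply]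
  split_ifs with h
  · rfl
  · exact (hf T h).symm

lemma ext_injective (j : ℕ) : Function.Injective (ext A j : (Sub ι j → M) →ₗ[A] _) := by
  intro f g h
  rw [← res_ext (A := A) j f, h, res_ext]

/-- The Koszul differential in degree `j + 1`. -/
def dk (x : ι → M →ₗ[A] M) (j : ℕ) : (Sub ι (j + 1) → M) →ₗ[A] (Sub ι j → M) :=
  res A j ∘ₗ D x ∘ₗ ext A (j + 1)

lemma dk_apply (x : ι → M →ₗ[A] M) (j : ℕ) (f : Sub ι (j + 1) → M) (U : Sub ι j) :
    dk x j f U = D x (ext A (j + 1) f) U.1 := rfl

lemma ext_dk (x : ι → M →ₗ[A] M) (j : ℕ) (f : Sub ι (j + 1) → M) :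
    ext A j (dk x j f) = D x (ext A (j + 1) f) :=
  ext_res j (D_hom (ext_hom (j + 1) f))

lemma dk_dk (x : ι → M →ₗ[A] M) (hx : ∀ i j m, x i (x j m) = x j (x i m)) (j : ℕ)
    (f : Sub ι (j + 1 + 1) → M) : dk x j (dk x (j + 1) f) = 0 := by
  apply ext_injective (A := A)
  rw [ext_dk, ext_dk, D_D x hx, map_zero]

lemma dk_eq_zero_iff (x : ι → M →ₗ[A] M) (j : ℕ) (f : Sub ι (j + 1) → M) :
    dk x j f = 0 ↔ D x (ext A (j + 1) f) = 0 := by
  rw [← ext_dk]
  constructor
  · intro h; rw [h, map_zero]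
  · intro h
    apply ext_injective (A := A)
    rw [h, map_zero]

end

end Pool.Agent.MPc132d1
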