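import Pool.Agent.Lib.MP_c132d1_al.Graded

/-!
Reduction of Koszul homology modulo a regular element.
-/

set_option linter.unusedSectionVars false

namespace Pool.Agent.MPc132d1

open Finset

variable {ι : Type} [Fintype ι] [LinearOrder ι]

section

variable {k N A : Type*} [CommRing k] [AddCommGroup N] [Module k N] [AddCommGroup A] [Module k A]

/-- extension by zero -/
def extV (k : Type*) {A : Type*} [CommRing k] [AddCommGroup A] [Module k A] (V : Finset ι)
    (j : ℕ) : (↥(V.powersetCard j) → A) →ₗ[k] (Finset ι → A) where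
  toFun f T := if h : T ∈ V.powersetCard j then f ⟨T, h⟩ else 0
  map_add' f g := by
    funext T; simp only [Pi.add_apply]; split_ifs <;> simp
  map_smul' c f := by
    funext T; simp only [Pi.smul_apply, RingHom.id_apply]; split_ifs <;> simp

/-- restriction -/
def resV (k : Type*) {A : Type*} [CommRing k] [AddCommGroup A] [Module k A] (V : Finset ι)
    (j : ℕ) : (Finset ι → A) →ₗ[k] (↥(V.powersetCard j) → A) where
  toFun f T := f T.1
  map_add' f g := rfl
  map_smul' c f := rfl

lemma extV_apply (V : Finset ι) (j : ℕ) (f : ↥(V.powersetCard j) → A) (T : Finset ι) :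
    extV k V j f T = if h : T ∈ V.powersetCard j then f ⟨T, h⟩ else 0 := rfl

lemma resV_apply (V : Finset ι) (j : ℕ) (f : Finset ι → A) (T : ↥(V.powersetCard j)) :
    resV k V j f T = f T.1 := rfl

lemma resV_extV (V : Finset ι) (j : ℕ) (f : ↥(V.powersetCard j) → A) :
    resV k V j (extV k V j f) = f := by
  funext T
  rw [resV_apply, extV_apply, dif_pos T.2]

lemma extV_hom (V : Finset ι) (j : ℕ) (f : ↥(V.powersetCard j) → A) : Hom j (extV k V j f) := by
  intro T hT
  rw [extV_apply, dif_neg]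
  rw [Finset.mem_powersetCard]
  exact fun h => hT h.2

lemma extV_supp (V : Finset ι) (j : ℕ) (f : ↥(V.powersetCard j) → A) : Supp V (extV k V j f) := by
  intro T hT
  rw [extV_apply, dif_neg]
  rw [Finset.mem_powersetCard]
  exact fun h => hT h.1

lemma extV_resV (V : Finset ι) (j : ℕ) {f : Finset ι → A} (hf : Hom j f) (hf' : Supp V f) :
    extV k V j (resV k V j f) = f := by
  funext T
  rw [extV_apply]
  split_ifs with h
  · rfl
  · rw [Finset.mem_powersetCard, not_and_or] at h
    rcases h with h | h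
    · exact (hf' T h).symm
    · exact (hf T h).symm

lemma extV_injective (V : Finset ι) (j : ℕ) :
    Function.Injective (extV k V j : (↥(V.powersetCard j) → A) →ₗ[k] _) := by
  intro f g h
  rw [← resV_extV (k := k) V j f, h, resV_extV]

/-- The Koszul differential on chains supported on subsets of `V`. -/
def dV (y : ι → A →ₗ[k] A) (V : Finset ι) (j : ℕ) :
    (↥(V.powersetCard (j + 1)) → A) →ₗ[k] (↥(V.powersetCard j) → A) :=
  resV k V j ∘ₗ D y ∘ₗ extV k V (j + 1)

lemma extV_dV (y : ι → A →ₗ[k] A) (V : Finset ι) (j : ℕ) (f : ↥(V.powersetCard (j + 1)) → A) :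
    extV k V j (dV y V j f) = D y (extV k V (j + 1) f) :=
  extV_resV V j (D_hom (extV_hom V (j + 1) f)) (D_supp (extV_supp V (j + 1) f))

lemma dV_dV (y : ι → A →ₗ[k] A) (hy : ∀ i j m, y i (y j m) = y j (y i m)) (V : Finset ι) (j : ℕ)
    (f : ↥(V.powersetCard (j + 1 + 1)) → A) : dV y V j (dV y V (j + 1) f) = 0 := by
  apply extV_injective (k := k)
  rw [extV_dV, extV_dV, D_D y hy, map_zero]

/-- reduction map on all functions -/
def PP (γ : N →ₗ[k] A) (i0 : ι) : (Finset ι → N) →ₗ[k] (Finset ι → A) where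
  toFun f T := if i0 ∈ T then 0 else γ (f T)
  map_add' f g := by
    funext T; simp only [Pi.add_apply, map_add]; split_ifs <;> simp
  map_smul' c f := by
    funext T; simp only [Pi.smul_apply, map_smul, RingHom.id_apply]; split_ifs <;> simp

lemma PP_apply (γ : N →ₗ[k] A) (i0 : ι) (f : Finset ι → N) (T : Finset ι) :
    PP γ i0 f T = if i0 ∈ T then 0 else γ (f T) := rfl

lemma PP_D {x : ι → N →ₗ[k] N} {y : ι → A →ₗ[k] A} {γ : N →ₗ[k] A} {i0 : ι}
    (h0 : ∀ n, γ (x i0 n) = 0) (h1 : ∀ i, i ≠ i0 → ∀ n, γ (x i n) = y i (γ n))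
    (f : Finset ι → N) : PP γ i0 (D x f) = D y (PP γ i0 f) := by
  funext U
  rw [PP_apply]
  split_ifs with hU
  · rw [D_apply]
    symm
    apply Finset.sum_eq_zero
    intro i _
    rw [PP_apply, if_pos (Finset.mem_insert_of_mem hU), map_zero, smul_zero]
  · rw [D_apply, D_apply, map_sum]
    refine Finset.sum_congr rfl fun i _ => ?_
    rw [map_zsmul, PP_apply]
    by_cases hi : i = i0
    · subst hi
      rw [h0, if_pos (Finset.mem_insert_self _ _), map_zero]
    · rw [h1 i hi, if_neg]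
      rw [Finset.mem_insert, not_or]
      exact ⟨fun h => hi h.symm, hU⟩

lemma PP_hom {γ : N →ₗ[k] A} {i0 : ι} {j : ℕ} {f : Finset ι → N} (hf : Hom j f) :
    Hom j (PP γ i0 f) := by
  intro T hT
  rw [PP_apply]
  split_ifs
  · rfl
  · rw [hf T hT, map_zero]

lemma PP_supp {γ : N →ₗ[k] A} {i0 : ι} (f : Finset ι → N) :
    Supp (Finset.univ.erase i0) (PP γ i0 f) := by
  intro T hT
  rw [PP_apply, if_pos]
  by_contra h
  exact hT (fun i hi => Finset.mem_erase.mpr ⟨fun h' => h (h' ▸ hi), Finset.mem_univ _⟩)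

/-- lifting functions along a surjection -/
lemma lift_fun {γ : N →ₗ[k] A} {i0 : ι} (hs : Function.Surjective γ) {j : ℕ} {f : Finset ι → A}
    (hf : Hom j f) (hf' : Supp (Finset.univ.erase i0) f) :
    ∃ u : Finset ι → N, Hom j u ∧ Supp (Finset.univ.erase i0) u ∧ PP γ i0 u = f := by
  classical
  choose g hg using hs
  refine ⟨fun T => if f T = 0 then 0 else g (f T), ?_, ?_, ?_⟩
  · intro T hT
    dsimp only
    rw [if_pos (hf T hT)]
  · intro T hT
    dsimp only
    rw [if_pos (hf' T hT)]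
  · funext T
    rw [PP_apply]
    split_ifs with h1 h2
    · symm
      apply hf'
      intro h
      exact Finset.notMem_erase i0 _ (h h1)
    · rw [map_zero, h2]
    · exact hg _

/-- lifting functions along `x i0` -/
lemma lift_ker {x : ι → N →ₗ[k] N} {γ : N →ₗ[k] A} {i0 : ι}
    (hk : ∀ n, γ n = 0 → ∃ n', x i0 n' = n) {j : ℕ} {u : Finset ι → N}
    (hu : Hom j u) (hu' : Supp (Finset.univ.erase i0) u) (h : PP γ i0 u = 0) :
    ∃ w : Finset ι → N, Hom j w ∧ Supp (Finset.univ.erase i0) w ∧ (fun T => x i0 (w T)) = u := by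
  classical
  have h1 : ∀ T, ∃ n', x i0 n' = u T := by
    intro T
    by_cases hT : i0 ∈ T
    · refine ⟨0, ?_⟩
      rw [map_zero]
      symm
      apply hu'
      intro h
      exact Finset.notMem_erase i0 _ (h hT)
    · apply hk
      have := congrFun h T
      rwa [PP_apply, if_neg hT, Pi.zero_apply] at this
  choose g hg using h1
  refine ⟨fun T => if u T = 0 then 0 else g T, ?_, ?_, ?_⟩
  · intro T hT
    dsimp only
    rw [if_pos (hu T hT)]
  · intro T hT
    dsimp only
    rw [if_pos (hu' T hT)]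
  · funext T
    dsimp only
    split_ifs with h2
    · rw [map_zero, h2]
    · exact hg T

lemma D_comp_x {x : ι → N →ₗ[k] N} (hx : ∀ i j m, x i (x j m) = x j (x i m)) (i0 : ι)
    (w : Finset ι → N) : D x (fun T => x i0 (w T)) = fun T => x i0 (D x w T) := by
  funext U
  rw [D_apply, D_apply, map_sum]
  refine Finset.sum_congr rfl fun i _ => ?_
  rw [map_zsmul, hx]

variable {x : ι → N →ₗ[k] N} {y : ι → A →ₗ[k] A} {γ : N →ₗ[k] A} {i0 : ι}

theorem red_surj (hx : ∀ i j m, x i (x j m) = x j (x i m)) (hi0 : ∀ i, i ≠ i0 → i0 < i)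
    (hinj : ∀ n, x i0 n = 0 → n = 0) (hs : Function.Surjective γ)
    (hk : ∀ n, γ n = 0 → ∃ n', x i0 n' = n)
    (h0 : ∀ n, γ (x i0 n) = 0) (h1 : ∀ i, i ≠ i0 → ∀ n, γ (x i n) = y i (γ n))
    (j : ℕ) {f : Finset ι → A} (hf : Hom (j + 1) f) (hf' : Supp (Finset.univ.erase i0) f)
    (hD : D y f = 0) : ∃ z : Finset ι → N, Hom (j + 1) z ∧ D x z = 0 ∧ PP γ i0 z = f := by
  obtain ⟨u, hu1, hu2, hu3⟩ := lift_fun (γ := γ) (i0 := i0) hs hf hf'
  have h2 : PP γ i0 (D x u) = 0 := by rw [PP_D h0 h1, hu3, hD]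
  obtain ⟨w, hw1, hw2, hw3⟩ := lift_ker hk (D_hom hu1) (D_supp hu2) h2
  have hV : ∀ i ∈ (Finset.univ.erase i0), i0 < i := by
    intro i hi
    exact hi0 i (Finset.ne_of_mem_erase hi)
  have hDw : D x w = 0 := by
    have h3 : D x (fun T => x i0 (w T)) = 0 := by rw [hw3, D_D x hx]
    rw [D_comp_x hx] at h3
    funext T
    exact hinj _ (congrFun h3 T)
  refine ⟨u - W (A := k) i0 w, ?_, ?_, ?_⟩
  · intro T hT
    rw [Pi.sub_apply, hu1 T hT, W_hom hw1 T hT, sub_zero]
  · rw [map_sub, D_W hV hw2, hw3, hDw, map_zero, sub_zero, sub_self]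
  · rw [map_sub, hu3, sub_eq_self]
    funext T
    rw [PP_apply, W_apply]
    split_ifs
    · rfl
    · rw [map_zero, Pi.zero_apply]

theorem red_ker (hx : ∀ i j m, x i (x j m) = x j (x i m)) (hi0 : ∀ i, i ≠ i0 → i0 < i)
    (hinj : ∀ n, x i0 n = 0 → n = 0) (hs : Function.Surjective γ)
    (hk : ∀ n, γ n = 0 → ∃ n', x i0 n' = n)
    (h0 : ∀ n, γ (x i0 n) = 0) (h1 : ∀ i, i ≠ i0 → ∀ n, γ (x i n) = y i (γ n))
    (j : ℕ) {z : Finset ι → N} (hz : Hom (j + 1) z) (hDz : D x z = 0)
    {g : Finset ι → A} (hg : Hom (j + 2) g) (hg' : Supp (Finset.univ.erase i0) g)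
    (hzg : PP γ i0 z = D y g) : ∃ w : Finset ι → N, Hom (j + 2) w ∧ D x w = z := by
  obtain ⟨u, hu1, hu2, hu3⟩ := lift_fun (γ := γ) (i0 := i0) hs hg hg'
  have hV : ∀ i ∈ (Finset.univ.erase i0), i0 < i := by
    intro i hi
    exact hi0 i (Finset.ne_of_mem_erase hi)
  set z' := z - D x u with hz'
  have hz'1 : Hom (j + 1) z' := by
    intro T hT
    rw [hz', Pi.sub_apply, hz T hT, D_hom hu1 T hT, sub_zero]
  have hz'2 : D x z' = 0 := by rw [hz', map_sub, hDz, D_D x hx, sub_zero]
  have hz'3 : PP γ i0 z' = 0 := by rw [hz', map_sub, PP_D h0 h1, hu3, hzg, sub_self]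
  have hins : insert i0 (Finset.univ.erase i0) = (Finset.univ : Finset ι) :=
    Finset.insert_erase (Finset.mem_univ _)
  have hsup : Supp (insert i0 (Finset.univ.erase i0)) z' := by
    rw [hins]
    intro T hT
    exact absurd (Finset.subset_univ T) hT
  have hp0s := part0_supp (A := k) hsup
  have hp1s := part1_supp (A := k) hsup
  have hp0h := part0_hom (A := k) (a := i0) hz'1
  have hp1h := part1_hom (A := k) (a := i0) hz'1
  have hdec := decomp (A := k) i0 z'
  have hPP0 : PP γ i0 (part0 (A := k) i0 z') = 0 := by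
    funext T
    have := congrFun hz'3 T
    rw [PP_apply] at this ⊢
    rw [part0_apply]
    split_ifs at this ⊢ with h
    · rfl
    · exact this
  obtain ⟨h, hh1, hh2, hh3⟩ := lift_ker hk hp0h hp0s hPP0
  have hsplit : (fun T => x i0 ((D x h + part1 (A := k) i0 z') T)) +
      W (A := k) i0 (-(D x (part1 (A := k) i0 z'))) = 0 := by
    have h3 := hz'2
    rw [hdec, map_add, D_W hV hp1s, ← hh3, D_comp_x hx] at h3
    rw [← h3, map_neg]
    funext T
    simp only [Pi.add_apply, Pi.neg_apply, Pi.sub_apply, map_add]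
    abel
  have hsepS : Supp (Finset.univ.erase i0) (fun T => x i0 ((D x h + part1 (A := k) i0 z') T)) := by
    intro T hT
    dsimp only
    rw [Pi.add_apply, D_supp hh2 T hT, hp1s T hT, add_zero, map_zero]
  have hsepS' : Supp (Finset.univ.erase i0) (-(D x (part1 (A := k) i0 z'))) := by
    intro T hT
    rw [Pi.neg_apply, D_supp hp1s T hT, neg_zero]
  obtain ⟨e1, _⟩ := eq_zero_of_add_W (A := k) (Finset.notMem_erase i0 _) hsepS hsepS' hsplit
  have e2 : part1 (A := k) i0 z' = - D x h := by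
    funext T
    have := hinj _ (congrFun e1 T)
    rw [Pi.add_apply] at this
    rw [Pi.neg_apply]
    exact (neg_eq_of_add_eq_zero_right this).symm
  refine ⟨u + W (A := k) i0 h, ?_, ?_⟩
  · intro T hT
    rw [Pi.add_apply, hu1 T hT, W_hom hh1 T hT, add_zero]
  · rw [map_add, D_W hV hh2, hh3]
    have : part0 (A := k) i0 z' - W (A := k) i0 (D x h) = z' := by
      conv_rhs => rw [hdec, e2, map_neg]
      rw [sub_eq_add_neg]
    rw [this, hz']
    abel

end

end Pool.Agent.MPc132d1
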