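import Pool.Agent.Lib.MP_c132d1_al.TorK
import Pool.Agent.Lib.MP_c132d1_al.Red

/-!
Homology of the Koszul chains with values in `N` and of the reduced chains.
-/

set_option linter.unusedSectionVars false

namespace Pool.Agent.MPc132d1

open Finset

universe u

section quot

variable {ι : Type} [Fintype ι] [LinearOrder ι] {k R : Type u} [Field k] [CommRing R] [Algebra k R]
variable {N : Type u} [AddCommGroup N] [Module R N] [Module k N] [IsScalarTower k R N]
variable {A : Type u} [AddCommGroup A] [Module k A]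

/-- homology of the reduced chains -/
abbrev HV (y : ι → A →ₗ[k] A) (V : Finset ι) (j : ℕ) : Type u :=
  ↥(LinearMap.ker (dV y V j)) ⧸
    (LinearMap.range (dV y V (j + 1))).submoduleOf (LinearMap.ker (dV y V j))

/-- homology of the Koszul chains -/
abbrev HK (x : ι → N →ₗ[R] N) (j : ℕ) : Type u :=
  ↥(LinearMap.ker (dk x j)) ⧸ (LinearMap.range (dk x (j + 1))).submoduleOf (LinearMap.ker (dk x j))

lemma D_restrict (x : ι → N →ₗ[R] N) (f : Finset ι → N) :
    D (fun i => (x i).restrictScalars k) f = D x f := by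
  funext U
  rw [D_apply, D_apply]
  rfl

/-- the reduction map on chains of degree `j` -/
noncomputable def Theta (R : Type u) [CommRing R] [Algebra k R] [Module R N] [IsScalarTower k R N]
    (γ : N →ₗ[k] A) (i0 : ι) (j : ℕ) :
    (Sub ι j → N) →ₗ[k] (↥((Finset.univ.erase i0).powersetCard j) → A) :=
  resV k (Finset.univ.erase i0) j ∘ₗ PP γ i0 ∘ₗ (ext R j).restrictScalars k

lemma Theta_apply (γ : N →ₗ[k] A) (i0 : ι) (j : ℕ) (z : Sub ι j → N) :
    Theta R γ i0 j z = resV k (Finset.univ.erase i0) j (PP γ i0 (ext R j z)) := rfl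

lemma extV_Theta (γ : N →ₗ[k] A) (i0 : ι) (j : ℕ) (z : Sub ι j → N) :
    extV k (Finset.univ.erase i0) j (Theta R γ i0 j z) = PP γ i0 (ext R j z) := by
  rw [Theta_apply, extV_resV _ _ (PP_hom (ext_hom j z)) (PP_supp _)]

lemma dV_Theta {x : ι → N →ₗ[R] N} {y : ι → A →ₗ[k] A} {γ : N →ₗ[k] A} {i0 : ι}
    (h0 : ∀ n, γ (x i0 n) = 0) (h1 : ∀ i, i ≠ i0 → ∀ n, γ (x i n) = y i (γ n)) (j : ℕ)
    (z : Sub ι (j + 1) → N) :
    dV y (Finset.univ.erase i0) j (Theta R γ i0 (j + 1) z) = Theta R γ i0 j (dk x j z) := by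
  apply extV_injective (k := k)
  rw [extV_dV, extV_Theta, extV_Theta, ext_dk, ← D_restrict (k := k) x, PP_D (y := y)]
  · intro n; exact h0 n
  · intro i hi n; exact h1 i hi n

/-- the reduction map on cycles -/
noncomputable def psi {x : ι → N →ₗ[R] N} {y : ι → A →ₗ[k] A} {γ : N →ₗ[k] A} {i0 : ι}
    (h0 : ∀ n, γ (x i0 n) = 0) (h1 : ∀ i, i ≠ i0 → ∀ n, γ (x i n) = y i (γ n)) (j : ℕ) :
    ↥(LinearMap.ker (dk x j)) →ₗ[k] HV y (Finset.univ.erase i0) j :=
  Submodule.mkQ _ ∘ₗ LinearMap.codRestrict (LinearMap.ker (dV y (Finset.univ.erase i0) j))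
    (Theta R γ i0 (j + 1) ∘ₗ (LinearMap.ker (dk x j)).subtype.restrictScalars k) (by
      intro z
      rw [LinearMap.mem_ker, LinearMap.comp_apply]
      show dV y (Finset.univ.erase i0) j (Theta R γ i0 (j + 1) z.1) = 0
      rw [dV_Theta h0 h1, LinearMap.mem_ker.mp z.2, map_zero])

theorem HK_equiv {x : ι → N →ₗ[R] N} {y : ι → A →ₗ[k] A} {γ : N →ₗ[k] A} {i0 : ι}
    (hx : ∀ i j m, x i (x j m) = x j (x i m)) (hi0 : ∀ i, i ≠ i0 → i0 < i)
    (hinj : ∀ n, x i0 n = 0 → n = 0) (hs : Function.Surjective γ)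
    (hk : ∀ n, γ n = 0 → ∃ n', x i0 n' = n)
    (h0 : ∀ n, γ (x i0 n) = 0) (h1 : ∀ i, i ≠ i0 → ∀ n, γ (x i n) = y i (γ n)) (j : ℕ) :
    Nonempty (HK x j ≃ₗ[k] HV y (Finset.univ.erase i0) j) := by
  have hsurj : Function.Surjective (psi h0 h1 j) := by
    intro q
    obtain ⟨⟨f, hf⟩, rfl⟩ := Submodule.mkQ_surjective _ q
    have hf' : D y (extV k (Finset.univ.erase i0) (j + 1) f) = 0 := by
      rw [← extV_dV, LinearMap.mem_ker.mp hf, map_zero]
    obtain ⟨z, hz1, hz2, hz3⟩ := red_surj (x := fun i => (x i).restrictScalars k) (y := y)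
      (γ := γ) (i0 := i0) hx hi0 hinj hs hk h0 h1 j (extV_hom _ _ f) (extV_supp _ _ f) hf'
    rw [D_restrict] at hz2
    refine ⟨⟨res R (j + 1) z, ?_⟩, ?_⟩
    · rw [LinearMap.mem_ker, dk_eq_zero_iff, ext_res _ hz1, hz2]
    · show Submodule.mkQ _ _ = Submodule.mkQ _ _
      congr 1
      apply Subtype.ext
      show Theta R γ i0 (j + 1) (res R (j + 1) z) = f
      apply extV_injective (k := k)
      rw [extV_Theta, ext_res _ hz1, hz3]
  have hker : LinearMap.ker (psi h0 h1 j) =
      ((LinearMap.range (dk x (j + 1))).submoduleOf (LinearMap.ker (dk x j))).restrictScalars k := by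
    ext z
    obtain ⟨z, hz⟩ := z
    rw [LinearMap.mem_ker, Submodule.restrictScalars_mem]
    change _ ↔ z ∈ LinearMap.range (dk x (j + 1))
    have e1 : psi h0 h1 j ⟨z, hz⟩ = 0 ↔
        Theta R γ i0 (j + 1) z ∈ LinearMap.range (dV y (Finset.univ.erase i0) (j + 1)) := by
      show Submodule.mkQ _ _ = 0 ↔ _
      rw [Submodule.mkQ_apply, Submodule.Quotient.mk_eq_zero]
      rfl
    rw [e1]
    constructor
    · rintro ⟨g, hg⟩
      have e2 : PP γ i0 (ext R (j + 1) z) = D y (extV k (Finset.univ.erase i0) (j + 2) g) := by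
        rw [← extV_dV, hg, extV_Theta]
      have hz' : D (fun i => (x i).restrictScalars k) (ext R (j + 1) z) = 0 := by
        rw [D_restrict, ← dk_eq_zero_iff]
        exact LinearMap.mem_ker.mp hz
      obtain ⟨w, hw1, hw2⟩ := red_ker (x := fun i => (x i).restrictScalars k) (y := y)
        (γ := γ) (i0 := i0) hx hi0 hinj hs hk h0 h1 j (ext_hom _ z) hz'
        (extV_hom _ _ g) (extV_supp _ _ g) e2
      refine ⟨res R (j + 2) w, ?_⟩
      apply ext_injective (A := R)
      rw [ext_dk, ext_res _ hw1, ← hw2, D_restrict]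
    · rintro ⟨w, hw⟩
      refine ⟨Theta R γ i0 (j + 2) w, ?_⟩
      rw [dV_Theta h0 h1, hw]
  exact ⟨(Submodule.Quotient.restrictScalarsEquiv k _).symm.trans
    ((Submodule.quotEquivOfEq _ _ hker.symm).trans
      (LinearMap.quotKerEquivOfSurjective _ hsurj))⟩

end quot

section tor

open MvPolynomial CategoryTheory

variable (ι : Type) [Fintype ι] [LinearOrder ι] (k : Type u) [Field k]
variable (N : Type u) [AddCommGroup N] [Module (MvPolynomial ι k) N]

/-- comparison of the categorical description of homology and the naive one -/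
noncomputable def clean (j : ℕ) :
    (LinearMap.ker (KS ι k N j).g.hom ⧸ LinearMap.range (KS ι k N j).moduleCatToCycles) ≃ₗ[
      MvPolynomial ι k] HK (xm (ι := ι) k N) j :=
  Submodule.quotEquivOfEq _ _ (by
    ext z
    obtain ⟨z, hz⟩ := z
    constructor
    · rintro ⟨w, hw⟩
      exact ⟨w, congrArg Subtype.val hw⟩
    · rintro ⟨w, hw⟩
      exact ⟨w, Subtype.ext hw⟩)

/-- `Tor_{j+1}(N, k)` -/
noncomputable abbrev TorObj (j : ℕ) : ModuleCat.{u} (MvPolynomial ι k) :=
  ((Tor (ModuleCat.{u} (MvPolynomial ι k)) j).obj (ModuleCat.of (MvPolynomial ι k) N)).obj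
      (ModuleCat.of (MvPolynomial ι k) (MvPolynomial ι k ⧸ maxIdeal ι k))

/-- the isomorphism in the category of modules -/
noncomputable def torHK (j : ℕ) : TorObj ι k N (j + 1) ≅
    ModuleCat.of (MvPolynomial ι k) (HK (xm (ι := ι) k N) j) :=
  torIso ι k N j ≪≫ (clean ι k N j).toModuleIso

theorem rank_tor [Module k N] [IsScalarTower k (MvPolynomial ι k) N] (j : ℕ) :
    Module.rank k ((ModuleCat.restrictScalars (algebraMap k (MvPolynomial ι k))).obj
      (TorObj ι k N (j + 1))) = Module.rank k (HK (xm (ι := ι) k N) j) := by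
  have e1 := ((ModuleCat.restrictScalars.{u} (algebraMap k (MvPolynomial ι k))).mapIso
    (torHK ι k N j)).toLinearEquiv
  rw [e1.rank_eq]
  let e2 : ((ModuleCat.restrictScalars.{u} (algebraMap k (MvPolynomial ι k))).obj
      (ModuleCat.of (MvPolynomial ι k) (HK (xm (ι := ι) k N) j))) ≃ₗ[k]
      HK (xm (ι := ι) k N) j :=
    { toFun := fun q => q
      invFun := fun q => q
      left_inv := fun _ => rfl
      right_inv := fun _ => rfl
      map_add' := fun _ _ => rfl
      map_smul' := fun c q => by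
        show (algebraMap k (MvPolynomial ι k) c) • (show HK (xm (ι := ι) k N) j from q) =
          c • (show HK (xm (ι := ι) k N) j from q)
        exact algebraMap_smul _ c _ }
  exact e2.rank_eq

end tor

end Pool.Agent.MPc132d1
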