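import Mathlib

/-!
The Koszul differential as an operator on functions `Finset ι → M`.
-/

set_option linter.unusedSectionVars false

namespace Pool.Agent.MPc132d1

open Finset

variable {ι : Type} [Fintype ι] [LinearOrder ι]

/-- the sign `(-1)^#{l ∈ U : l < i}` -/
def sgn (i : ι) (U : Finset ι) : ℤ := (-1) ^ (U.filter (· < i)).card

lemma sgn_insert {i l : ι} {U : Finset ι} (hi : i ∉ U) :
    sgn l (insert i U) = (if i < l then -1 else 1) * sgn l U := by
  unfold sgn
  rw [Finset.filter_insert]
  split_ifs with h
  · rw [Finset.card_insert_of_notMem (by simp [hi]), pow_succ]; ring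
  · rw [one_mul]

lemma sgn_mul_self (i : ι) (U : Finset ι) : sgn i U * sgn i U = 1 := by
  unfold sgn
  rw [← mul_pow]; simp

section D

variable {A M : Type*} [CommRing A] [AddCommGroup M] [Module A M]

/-- The Koszul differential of a family of operators, on functions on all finite subsets. -/
def D (x : ι → M →ₗ[A] M) : (Finset ι → M) →ₗ[A] (Finset ι → M) where
  toFun f U := ∑ i ∈ Uᶜ, sgn i U • x i (f (insert i U))
  map_add' f g := by
    funext U
    simp only [Pi.add_apply, map_add, smul_add, Finset.sum_add_distrib]
  map_smul' a f := by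
    funext U
    simp only [Pi.smul_apply, map_smul, RingHom.id_apply, Finset.smul_sum]
    refine Finset.sum_congr rfl fun i _ => ?_
    rw [smul_comm]

lemma D_apply (x : ι → M →ₗ[A] M) (f : Finset ι → M) (U : Finset ι) :
    D x f U = ∑ i ∈ Uᶜ, sgn i U • x i (f (insert i U)) := rfl

/-- `D ∘ D = 0` for commuting operators. -/
theorem D_D (x : ι → M →ₗ[A] M) (hx : ∀ i j m, x i (x j m) = x j (x i m)) (f : Finset ι → M) :
    D x (D x f) = 0 := by
  funext U
  rw [D_apply, Pi.zero_apply]
  have h1 : ∀ i ∈ Uᶜ, sgn i U • x i (D x f (insert i U)) =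
      ∑ l ∈ (insert i U)ᶜ, (sgn i U * sgn l (insert i U)) • x i (x l (f (insert l (insert i U)))) := by
    intro i _
    rw [D_apply, map_sum, Finset.smul_sum]
    refine Finset.sum_congr rfl fun l _ => ?_
    rw [map_zsmul, smul_smul]
  rw [Finset.sum_congr rfl h1, Finset.sum_sigma']
  refine Finset.sum_involution (fun p _ => ⟨p.2, p.1⟩) ?_ ?_ ?_ ?_
  · rintro ⟨i, l⟩ hp
    simp only [Finset.mem_sigma, Finset.mem_compl, Finset.mem_insert, not_or] at hp
    obtain ⟨hi, hli, hl⟩ := hp
    dsimp only
    rw [sgn_insert hi, sgn_insert hl, Finset.insert_comm l i U, hx i l, ← add_smul]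
    have : sgn i U * ((if i < l then -1 else 1) * sgn l U) +
        sgn l U * ((if l < i then -1 else 1) * sgn i U) = 0 := by
      rcases lt_trichotomy i l with h | h | h
      · rw [if_pos h, if_neg (not_lt_of_gt h)]; ring
      · exact absurd h.symm hli
      · rw [if_neg (not_lt_of_gt h), if_pos h]; ring
    rw [this, zero_smul]
  · rintro ⟨i, l⟩ hp _ heq
    simp only [Finset.mem_sigma, Finset.mem_compl, Finset.mem_insert, not_or] at hp
    simp only [Sigma.mk.injEq] at heq
    exact hp.2.1 heq.1
  · rintro ⟨i, l⟩ hp
    simp only [Finset.mem_sigma, Finset.mem_compl, Finset.mem_insert, not_or] at hp ⊢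
    exact ⟨hp.2.2, fun h => hp.2.1 h.symm, hp.1⟩
  · rintro ⟨i, l⟩ _
    rfl

/-- functions supported on sets of cardinality `j` -/
def Hom (j : ℕ) (f : Finset ι → M) : Prop := ∀ T : Finset ι, T.card ≠ j → f T = 0

/-- functions supported on subsets of `V` -/
def Supp (V : Finset ι) (f : Finset ι → M) : Prop := ∀ T : Finset ι, ¬ T ⊆ V → f T = 0

lemma D_hom {x : ι → M →ₗ[A] M} {j : ℕ} {f : Finset ι → M} (hf : Hom (j + 1) f) :
    Hom j (D x f) := by
  intro U hU
  rw [D_apply]
  refine Finset.sum_eq_zero fun i hi => ?_
  rw [Finset.mem_compl] at hi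
  rw [hf (insert i U) (by rw [Finset.card_insert_of_notMem hi]; omega), map_zero, smul_zero]

lemma D_supp {x : ι → M →ₗ[A] M} {V : Finset ι} {f : Finset ι → M} (hf : Supp V f) :
    Supp V (D x f) := by
  intro U hU
  rw [D_apply]
  refine Finset.sum_eq_zero fun i hi => ?_
  rw [hf (insert i U) (fun h => hU ((Finset.subset_insert i U).trans h)), map_zero, smul_zero]

/-- `D f = 0` if `f` is supported on the empty set. -/
lemma D_hom_zero {x : ι → M →ₗ[A] M} {f : Finset ι → M} (hf : Hom 0 f) : D x f = 0 := by
  funext U
  rw [D_apply, Pi.zero_apply]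
  refine Finset.sum_eq_zero fun i hi => ?_
  rw [Finset.mem_compl] at hi
  rw [hf (insert i U) (by rw [Finset.card_insert_of_notMem hi]; omega), map_zero, smul_zero]

/-- wedge with the basis vector of `a` -/
def W (a : ι) : (Finset ι → M) →ₗ[A] (Finset ι → M) where
  toFun w T := if a ∈ T then w (T.erase a) else 0
  map_add' f g := by
    funext T; simp only [Pi.add_apply]; split_ifs <;> simp
  map_smul' c f := by
    funext T; simp only [Pi.smul_apply, RingHom.id_apply]; split_ifs <;> simp

lemma W_apply (a : ι) (w : Finset ι → M) (T : Finset ι) :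
    W (A := A) a w T = if a ∈ T then w (T.erase a) else 0 := rfl

lemma D_W {x : ι → M →ₗ[A] M} {a : ι} {V : Finset ι} (hV : ∀ i ∈ V, a < i) {w : Finset ι → M}
    (hw : Supp V w) :
    D x (W (A := A) a w) = (fun T => x a (w T)) - W (A := A) a (D x w) := by
  have haV : a ∉ V := fun h => lt_irrefl _ (hV a h)
  funext U
  rw [Pi.sub_apply, D_apply, W_apply]
  by_cases ha : a ∈ U
  · -- `U` contains `a`
    rw [if_pos ha, hw U (fun h => haV (h ha)), map_zero, zero_sub, D_apply, ← Finset.sum_neg_distrib]
    have hsub : Uᶜ ⊆ (U.erase a)ᶜ := by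
      intro i hi
      rw [Finset.mem_compl] at hi ⊢
      exact fun h => hi (Finset.mem_of_mem_erase h)
    rw [← Finset.sum_subset hsub]
    · refine Finset.sum_congr rfl fun i hi => ?_
      rw [Finset.mem_compl] at hi
      have hia : i ≠ a := fun h => hi (h ▸ ha)
      rw [W_apply, if_pos (Finset.mem_insert_of_mem ha), Finset.erase_insert_of_ne hia]
      by_cases hiV : insert i (U.erase a) ⊆ V
      · have hai : a < i := hV i (hiV (Finset.mem_insert_self _ _))
        have : sgn i U = - sgn i (U.erase a) := by
          conv_lhs => rw [← Finset.insert_erase ha]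
          rw [sgn_insert (Finset.notMem_erase a U), if_pos hai]; ring
        rw [this, neg_smul]
      · rw [hw _ hiV, map_zero, smul_zero, smul_zero, neg_zero]
    · intro i hi hiU
      rw [Finset.mem_compl] at hi hiU
      have hiU' : i ∈ U := by_contra hiU
      have : i = a := by
        by_contra h
        exact hi (Finset.mem_erase.mpr ⟨h, hiU'⟩)
      subst this
      rw [Finset.insert_erase ha, hw U (fun h => haV (h ha)), map_zero, smul_zero, neg_zero]
  · rw [if_neg ha, sub_zero]
    rw [Finset.sum_eq_single a]
    · rw [W_apply, if_pos (Finset.mem_insert_self _ _), Finset.erase_insert ha]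
      by_cases hU : U ⊆ V
      · have : sgn a U = 1 := by
          unfold sgn
          rw [Finset.filter_false_of_mem, Finset.card_empty, pow_zero]
          intro i hi
          exact not_lt_of_gt (hV i (hU hi))
        rw [this, one_smul]
      · rw [hw U hU, map_zero, smul_zero]
    · intro i hi hia
      rw [W_apply, if_neg, map_zero, smul_zero]
      simp only [Finset.mem_insert, not_or]
      exact ⟨fun h => hia h.symm, ha⟩
    · intro h
      exact absurd (Finset.mem_compl.mpr ha) h

/-- the part of `f` on sets not containing `a` -/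
def part0 (a : ι) : (Finset ι → M) →ₗ[A] (Finset ι → M) where
  toFun f T := if a ∈ T then 0 else f T
  map_add' f g := by
    funext T; simp only [Pi.add_apply]; split_ifs <;> simp
  map_smul' c f := by
    funext T; simp only [Pi.smul_apply, RingHom.id_apply]; split_ifs <;> simp

/-- the part of `f` on sets containing `a`, with `a` removed -/
def part1 (a : ι) : (Finset ι → M) →ₗ[A] (Finset ι → M) where
  toFun f T := if a ∈ T then 0 else f (insert a T)
  map_add' f g := by
    funext T; simp only [Pi.add_apply]; split_ifs <;> simp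
  map_smul' c f := by
    funext T; simp only [Pi.smul_apply, RingHom.id_apply]; split_ifs <;> simp

lemma part0_apply (a : ι) (f : Finset ι → M) (T : Finset ι) :
    part0 (A := A) a f T = if a ∈ T then 0 else f T := rfl
lemma part1_apply (a : ι) (f : Finset ι → M) (T : Finset ι) :
    part1 (A := A) a f T = if a ∈ T then 0 else f (insert a T) := rfl

lemma decomp (a : ι) (f : Finset ι → M) :
    f = part0 (A := A) a f + W (A := A) a (part1 (A := A) a f) := by
  funext T
  rw [Pi.add_apply, part0_apply, W_apply, part1_apply]
  by_cases h : a ∈ T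
  · rw [if_pos h, if_pos h, if_neg (Finset.notMem_erase a T), Finset.insert_erase h, zero_add]
  · rw [if_neg h, if_neg h, add_zero]

lemma part0_supp {a : ι} {V : Finset ι} {f : Finset ι → M} (hf : Supp (insert a V) f) :
    Supp V (part0 (A := A) a f) := by
  intro T hT
  rw [part0_apply]
  split_ifs with h
  · rfl
  · apply hf
    intro hTV
    exact hT (by
      intro i hi
      rcases Finset.mem_insert.mp (hTV hi) with rfl | h'
      · exact absurd hi h
      · exact h')

lemma part1_supp {a : ι} {V : Finset ι} {f : Finset ι → M} (hf : Supp (insert a V) f) :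
    Supp V (part1 (A := A) a f) := by
  intro T hT
  rw [part1_apply]
  split_ifs with h
  · rfl
  · apply hf
    intro hTV
    exact hT (by
      intro i hi
      rcases Finset.mem_insert.mp (hTV (Finset.mem_insert_of_mem hi)) with rfl | h'
      · exact absurd hi h
      · exact h')

lemma part0_hom {a : ι} {j : ℕ} {f : Finset ι → M} (hf : Hom j f) :
    Hom j (part0 (A := A) a f) := by
  intro T hT
  rw [part0_apply]
  split_ifs with h
  · rfl
  · exact hf T hT

lemma part1_hom {a : ι} {j : ℕ} {f : Finset ι → M} (hf : Hom (j + 1) f) :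
    Hom j (part1 (A := A) a f) := by
  intro T hT
  rw [part1_apply]
  split_ifs with h
  · rfl
  · exact hf _ (by rw [Finset.card_insert_of_notMem h]; omega)

lemma W_hom {a : ι} {j : ℕ} {w : Finset ι → M} (hw : Hom j w) : Hom (j + 1) (W (A := A) a w) := by
  intro T hT
  rw [W_apply]
  split_ifs with h
  · apply hw
    rw [Finset.card_erase_of_mem h]
    have := Finset.card_pos.mpr ⟨a, h⟩
    omega
  · rfl

lemma W_supp {a : ι} {V : Finset ι} {w : Finset ι → M} (hw : Supp V w) :
    Supp (insert a V) (W (A := A) a w) := by
  intro T hT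
  rw [W_apply]
  split_ifs with h
  · apply hw
    intro hTV
    apply hT
    rw [← Finset.insert_erase h]
    exact Finset.insert_subset_insert a hTV
  · rfl

/-- separation of the two components -/
lemma eq_zero_of_add_W {a : ι} {V : Finset ι} (haV : a ∉ V) {u w : Finset ι → M} (hu : Supp V u)
    (hw : Supp V w) (h : u + W (A := A) a w = 0) : u = 0 ∧ w = 0 := by
  constructor
  · funext T
    have h1 := congrFun h T
    rw [Pi.add_apply, W_apply] at h1
    by_cases ha : a ∈ T
    · exact hu T (fun hT => haV (hT ha))
    · rw [if_neg ha, add_zero] at h1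
      exact h1
  · funext T
    by_cases ha : a ∈ T
    · exact hw T (fun hT => haV (hT ha))
    · have h1 := congrFun h (insert a T)
      rw [Pi.add_apply, W_apply, if_pos (Finset.mem_insert_self _ _), Finset.erase_insert ha,
        hu (insert a T) (fun hT => haV (hT (Finset.mem_insert_self _ _))), zero_add] at h1
      exact h1

end D

end Pool.Agent.MPc132d1
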