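import Pool.Agent.Lib.MP_c132d1_al.Sgp

/-!
Betti numbers of the semigroup rings of `S_{2,4}` and `S_{2,5}`.
-/

set_option linter.unusedSectionVars false

namespace Pool.Agent.MPc132d1

open Finset MvPolynomial CategoryTheory

universe u

section

variable {k : Type u} [Field k] {e n : ℕ}

/-- the index `0` -/
def i0 (he : 6 ≤ e) (hn : n = 4 ∨ n = 5) : ↥(J e 2 n) := ⟨0, mem_J.mpr (by omega)⟩

lemma i0_lt (he : 6 ≤ e) (hn : n = 4 ∨ n = 5) (i : ↥(J e 2 n)) (hi : i ≠ i0 he hn) :
    i0 he hn < i := by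
  have h1 : i.1 ≠ 0 := fun h => hi (Subtype.ext h)
  exact Subtype.mk_lt_mk.mpr (Nat.pos_of_ne_zero h1)

/-- the set of the other indices -/
abbrev VV (he : 6 ≤ e) (hn : n = 4 ∨ n = 5) : Finset ↥(J e 2 n) := Finset.univ.erase (i0 he hn)

/-- the index `1` -/
def ia (he : 6 ≤ e) (hn : n = 4 ∨ n = 5) : ↥(VV he hn) :=
  ⟨⟨1, mem_J.mpr (by omega)⟩, Finset.mem_erase.mpr
    ⟨fun h => one_ne_zero (congrArg Subtype.val h), Finset.mem_univ _⟩⟩

/-- the index `n - 1` -/
def ib (he : 6 ≤ e) (hn : n = 4 ∨ n = 5) : ↥(VV he hn) :=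
  ⟨⟨n - 1, mem_J.mpr (by omega)⟩, Finset.mem_erase.mpr
    ⟨fun h => by
      have : n - 1 = 0 := congrArg Subtype.val h
      omega, Finset.mem_univ _⟩⟩

lemma ia_ne_ib (he : 6 ≤ e) (hn : n = 4 ∨ n = 5) : ia he hn ≠ ib he hn := by
  intro h
  have : 1 = n - 1 := congrArg (fun x => x.1.1) h
  omega

lemma card_VV (he : 6 ≤ e) (hn : n = 4 ∨ n = 5) : (VV he hn).card = e - 3 := by
  rw [Finset.card_erase_of_mem (Finset.mem_univ _), Finset.card_univ, Fintype.card_coe]
  have : (J e 2 n).card = e - 2 := by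
    rw [J, Finset.card_sdiff_of_subset, Finset.card_range, Finset.card_pair (by omega)]
    intro x hx
    simp only [Finset.mem_insert, Finset.mem_singleton] at hx
    rw [Finset.mem_range]
    omega
  rw [this]
  omega

lemma coeff_zero_of (q : R k e 2 n ⧸ Idl k e 2 n) {s : ℕ} (h : ¬ InS e n s) :
    (theta k e n q).coeff s = 0 := by
  by_contra h'
  exact h (theta_supp k e n q s h')

/-- the reduction map intertwines the operators -/
lemma gam_X (he : 6 ≤ e) (hn : n = 4 ∨ n = 5) (i : ↥(J e 2 n))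
    (q : R k e 2 n ⧸ Idl k e 2 n) :
    gam k e n (VV he hn) ((X i : R k e 2 n) • q) =
      yA k (VV he hn) (ia he hn) (ib he hn) i (gam k e n (VV he hn) q) := by
  rw [gam_apply, gam_apply, yA_apply, theta_X]
  have hi := mem_J.mp i.2
  refine Prod.ext ?_ (Prod.ext ?_ (Prod.ext ?_ ?_))
  · show (Polynomial.X ^ (e + i.1) * theta k e n q).coeff 0 = 0
    rw [Polynomial.coeff_X_pow_mul', if_neg (by omega)]
  · funext l
    show (Polynomial.X ^ (e + i.1) * theta k e n q).coeff (e + l.1.1) =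
      if i = l.1 then (theta k e n q).coeff 0 else 0
    have hl := mem_J.mp l.1.2
    rw [Polynomial.coeff_X_pow_mul']
    by_cases h : i = l.1
    · rw [if_pos h, h, if_pos le_rfl, Nat.sub_self]
    · rw [if_neg h]
      split_ifs with h2
      · apply coeff_zero_of
        have h3 : i.1 ≠ l.1.1 := fun h' => h (Subtype.ext h')
        rintro (h4 | ⟨j, hj, h4⟩ | h4) <;> omega
      · rfl
  · show (Polynomial.X ^ (e + i.1) * theta k e n q).coeff (2 * e + 2) =
      if i = (ia he hn).1 then (theta k e n q).coeff (e + 1) else 0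
    rw [Polynomial.coeff_X_pow_mul', if_pos (by omega)]
    by_cases h : i = (ia he hn).1
    · rw [if_pos h, h]
      congr 1
      show 2 * e + 2 - (e + 1) = e + 1
      omega
    · rw [if_neg h]
      apply coeff_zero_of
      have h3 : i.1 ≠ 1 := fun h' => h (Subtype.ext h')
      rintro (h4 | ⟨j, hj, h4⟩ | h4)
      · omega
      · have := mem_J.mp hj
        omega
      · omega
  · show (Polynomial.X ^ (e + i.1) * theta k e n q).coeff (2 * e + n) =
      (if i = (ia he hn).1 then (theta k e n q).coeff (e + (n - 1)) else 0) +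
      (if i = (ib he hn).1 then (theta k e n q).coeff (e + 1) else 0)
    rw [Polynomial.coeff_X_pow_mul', if_pos (by omega)]
    by_cases h : i = (ia he hn).1
    · have hb : i ≠ (ib he hn).1 := fun h' => ia_ne_ib he hn (Subtype.ext (h.symm.trans h'))
      rw [if_pos h, if_neg hb, h, add_zero]
      congr 1
      show 2 * e + n - (e + 1) = e + (n - 1)
      omega
    · rw [if_neg h, zero_add]
      by_cases hb : i = (ib he hn).1
      · rw [if_pos hb, hb]
        congr 1
        show 2 * e + n - (e + (n - 1)) = e + 1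
        omega
      · rw [if_neg hb]
        apply coeff_zero_of
        have h3 : i.1 ≠ 1 := fun h' => h (Subtype.ext h')
        have h5 : i.1 ≠ n - 1 := fun h' => hb (Subtype.ext h')
        rintro (h4 | ⟨j, hj, h4⟩ | h4)
        · omega
        · have := mem_J.mp hj
          omega
        · omega

lemma gam_X0 (he : 6 ≤ e) (hn : n = 4 ∨ n = 5) (q : R k e 2 n ⧸ Idl k e 2 n) :
    gam k e n (VV he hn) ((X (i0 he hn) : R k e 2 n) • q) = 0 := by
  rw [gam_X, yA_apply]
  have h1 : ∀ l : ↥(VV he hn), i0 he hn ≠ l.1 := fun l h =>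
    Finset.ne_of_mem_erase l.2 h.symm
  rw [if_neg (h1 _), if_neg (h1 _), if_neg (h1 _), add_zero]
  refine Prod.ext rfl (Prod.ext ?_ rfl)
  funext l
  exact if_neg (h1 l)

lemma X0_inj (he : 6 ≤ e) (hn : n = 4 ∨ n = 5) (q : R k e 2 n ⧸ Idl k e 2 n)
    (h : (X (i0 he hn) : R k e 2 n) • q = 0) : q = 0 := by
  have h1 := theta_X k e n (i0 he hn) q
  rw [h, map_zero] at h1
  apply theta_inj k e n
  rw [map_zero]
  rcases mul_eq_zero.mp h1.symm with h2 | h2
  · exact absurd h2 (pow_ne_zero _ Polynomial.X_ne_zero)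
  · exact h2

lemma ker_gam (he : 6 ≤ e) (hn : n = 4 ∨ n = 5) (q : R k e 2 n ⧸ Idl k e 2 n)
    (h : gam k e n (VV he hn) q = 0) :
    ∃ q', (X (i0 he hn) : R k e 2 n) • q' = q := by
  rw [gam_apply] at h
  have h1 : (theta k e n q).coeff 0 = 0 := congrArg Prod.fst h
  have h2 : ∀ l ∈ J e 2 n, l ≠ 0 → (theta k e n q).coeff (e + l) = 0 := by
    intro l hl hl0
    have hmem : (⟨l, hl⟩ : ↥(J e 2 n)) ∈ VV he hn := Finset.mem_erase.mpr
      ⟨fun h' => hl0 (congrArg Subtype.val h'), Finset.mem_univ _⟩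
    exact congrFun (congrArg (fun p => p.2.1) h) ⟨⟨l, hl⟩, hmem⟩
  have h3 : (theta k e n q).coeff (2 * e + 2) = 0 := congrArg (fun p => p.2.2.1) h
  have h4 : (theta k e n q).coeff (2 * e + n) = 0 := congrArg (fun p => p.2.2.2) h
  have h5 : ∀ s, (theta k e n q).coeff s ≠ 0 → e ≤ s ∧ InS e n (s - e) := by
    intro s hs
    rcases theta_supp k e n q s hs with rfl | ⟨l, hl, rfl⟩ | hs2
    · exact absurd h1 hs
    · by_cases hl0 : l = 0
      · subst hl0
        exact ⟨by omega, Or.inl (by omega)⟩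
      · exact absurd (h2 l hl hl0) hs
    · refine ⟨by omega, ?_⟩
      rcases lt_or_ge s (3 * e) with hs3 | hs3
      · refine Or.inr (Or.inl ⟨s - 2 * e, mem_J.mpr ⟨by omega, ?_, ?_⟩, by omega⟩)
        · intro h'
          rw [show s = 2 * e + 2 by omega] at hs
          exact hs h3
        · intro h'
          rw [show s = 2 * e + n by omega] at hs
          exact hs h4
      · exact Or.inr (Or.inr (by omega))
  have h6 : Polynomial.X ^ e ∣ theta k e n q := by
    rw [Polynomial.X_pow_dvd_iff]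
    intro d hd
    by_contra h'
    have := (h5 d h').1
    omega
  obtain ⟨p, hp⟩ := h6
  have h7 : ∀ s, p.coeff s ≠ 0 → InS e n s := by
    intro s hs
    have h8 : (theta k e n q).coeff (s + e) = p.coeff s := by
      rw [hp, Polynomial.coeff_X_pow_mul]
    have h9 := (h5 (s + e) (by rw [h8]; exact hs)).2
    rwa [Nat.add_sub_cancel] at h9
  obtain ⟨q', hq'⟩ := theta_range he hn p h7
  refine ⟨q', ?_⟩
  apply theta_inj k e n
  rw [theta_X, hq', hp]
  rfl

lemma gam_surj (he : 6 ≤ e) (hn : n = 4 ∨ n = 5) :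
    Function.Surjective (gam k e n (VV he hn)) := by
  rintro ⟨c, f, p, r⟩
  set P : Polynomial k := Polynomial.C c + (∑ l : ↥(VV he hn),
    Polynomial.C (f l) * Polynomial.X ^ (e + l.1.1)) +
    Polynomial.C p * Polynomial.X ^ (2 * e + 2) + Polynomial.C r * Polynomial.X ^ (2 * e + n)
    with hP
  have hcoef : ∀ s, P.coeff s = (if s = 0 then c else 0) +
      (∑ l : ↥(VV he hn), if s = e + l.1.1 then f l else 0) +
      (if s = 2 * e + 2 then p else 0) + (if s = 2 * e + n then r else 0) := by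
    intro s
    rw [hP]
    simp only [Polynomial.coeff_add, Polynomial.coeff_C, Polynomial.finsetSum_coeff,
      Polynomial.coeff_C_mul_X_pow]
  have hl1 : ∀ l : ↥(VV he hn), 0 < l.1.1 ∧ l.1.1 < e := by
    intro l
    refine ⟨Nat.pos_of_ne_zero fun h => ?_, (mem_J.mp l.1.2).1⟩
    exact Finset.ne_of_mem_erase l.2 (Subtype.ext h)
  have hsupp : ∀ s, P.coeff s ≠ 0 → InS e n s := by
    intro s hs
    rw [hcoef] at hs
    by_contra hns
    apply hs
    have e1 : ¬ s = 0 := fun h => hns (Or.inl h)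
    have e2 : ∀ l : ↥(VV he hn), ¬ s = e + l.1.1 := fun l h =>
      hns (Or.inr (Or.inl ⟨l.1.1, l.1.2, h⟩))
    have e3 : ¬ s = 2 * e + 2 := fun h => hns (Or.inr (Or.inr (by omega)))
    have e4 : ¬ s = 2 * e + n := fun h => hns (Or.inr (Or.inr (by omega)))
    rw [if_neg e1, if_neg e3, if_neg e4, Finset.sum_eq_zero (fun l _ => if_neg (e2 l))]
    simp
  obtain ⟨q, hq⟩ := theta_range he hn P hsupp
  refine ⟨q, ?_⟩
  rw [gam_apply, hq]
  refine Prod.ext ?_ (Prod.ext ?_ (Prod.ext ?_ ?_))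
  · show P.coeff 0 = c
    rw [hcoef, if_pos rfl, if_neg (by omega), if_neg (by omega),
      Finset.sum_eq_zero (fun l _ => if_neg (by omega))]
    simp
  · funext l
    show P.coeff (e + l.1.1) = f l
    obtain ⟨h1, h2⟩ := hl1 l
    rw [hcoef, if_neg (by omega), if_neg (by omega), if_neg (by omega), Finset.sum_eq_single l,
      if_pos rfl]
    · simp
    · intro l' _ hll
      rw [if_neg]
      intro h
      exact hll (Subtype.ext (Subtype.ext (by omega)))
    · intro h
      exact absurd (Finset.mem_univ _) h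
  · show P.coeff (2 * e + 2) = p
    rw [hcoef, if_neg (by omega), if_pos rfl, if_neg (by omega),
      Finset.sum_eq_zero (fun l _ => if_neg (by have := hl1 l; omega))]
    simp
  · show P.coeff (2 * e + n) = r
    rw [hcoef, if_neg (by omega), if_neg (by omega), if_pos rfl,
      Finset.sum_eq_zero (fun l _ => if_neg (by have := hl1 l; omega))]
    simp

/-- The main computation. -/
theorem rank_tor_eq (he : 6 ≤ e) (hn : n = 4 ∨ n = 5) (j : ℕ) :
    Module.rank k ((ModuleCat.restrictScalars (algebraMap k (R k e 2 n))).obj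
      (TorObj ↥(J e 2 n) k (R k e 2 n ⧸ Idl k e 2 n) (j + 1))) =
      (((j + 1) * (e - 2).choose (j + 2) : ℕ) : Cardinal) := by
  rw [rank_tor]
  obtain ⟨E⟩ := HK_equiv (k := k) (x := xm (ι := ↥(J e 2 n)) k (R k e 2 n ⧸ Idl k e 2 n))
    (y := yA k (VV he hn) (ia he hn) (ib he hn)) (γ := gam k e n (VV he hn)) (i0 := i0 he hn)
    (xm_comm (ι := ↥(J e 2 n)) (k := k) _) (i0_lt he hn) (X0_inj he hn) (gam_surj he hn)
    (ker_gam he hn) (gam_X0 he hn) (fun i _ q => gam_X he hn i q) j
  rw [E.rank_eq, ← Module.finrank_eq_rank]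
  have h := finrank_HV (k := k) (ia_ne_ib he hn) j
  rw [card_VV, show e - 3 + 1 = e - 2 by omega] at h
  exact congrArg (fun x : ℕ => (x : Cardinal)) h

end

end Pool.Agent.MPc132d1
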