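import Pool.Agent.Lib.MP_c132d1_al.HomK

/-!
Ranks in the reduced complex.
-/

set_option linter.unusedSectionVars false

namespace Pool.Agent.MPc132d1

open Finset

universe u

variable {ι : Type} [Fintype ι] [LinearOrder ι] (k : Type u) [Field k]

/-- The algebra `A`: coordinates at `1`, at the `x_i` (`i ∈ V`), and at two socle elements. -/
abbrev AA (V : Finset ι) : Type u := k × (↥V → k) × k × k

/-- multiplication by `x_i` on `A` -/
def yA (V : Finset ι) (a b : ↥V) (i : ι) : AA k V →ₗ[k] AA k V where
  toFun p := (0, fun l => if i = l.1 then p.1 else 0, if i = a.1 then p.2.1 a else 0,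
    (if i = a.1 then p.2.1 b else 0) + (if i = b.1 then p.2.1 a else 0))
  map_add' p q := by
    ext
    · simp
    · simp only [Prod.fst_add, Prod.snd_add, Pi.add_apply]; split_ifs <;> simp
    · simp only [Prod.fst_add, Prod.snd_add, Pi.add_apply]; split_ifs <;> simp
    · simp only [Prod.fst_add, Prod.snd_add, Pi.add_apply]; split_ifs <;> simp [add_add_add_comm]
  map_smul' c p := by
    ext
    · simp
    · simp only [Prod.smul_fst, Prod.smul_snd, Pi.smul_apply, RingHom.id_apply]
      split_ifs <;> simp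
    · simp only [Prod.smul_fst, Prod.smul_snd, Pi.smul_apply, RingHom.id_apply]
      split_ifs <;> simp
    · simp only [Prod.smul_fst, Prod.smul_snd, Pi.smul_apply, RingHom.id_apply]
      split_ifs <;> simp [mul_add]

variable {k} {V : Finset ι} {a b : ↥V}

lemma yA_apply (i : ι) (p : AA k V) : yA k V a b i p =
    (0, fun l => if i = l.1 then p.1 else 0, if i = a.1 then p.2.1 a else 0,
    (if i = a.1 then p.2.1 b else 0) + (if i = b.1 then p.2.1 a else 0)) := rfl

lemma DyA_1 (f : Finset ι → AA k V) (U : Finset ι) : (D (yA k V a b) f U).1 = 0 := by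
  rw [D_apply, Prod.fst_sum]
  refine Finset.sum_eq_zero fun i _ => ?_
  rw [yA_apply, Prod.smul_fst, smul_zero]

lemma DyA_2 (f : Finset ι → AA k V) (U : Finset ι) (l : ↥V) :
    (D (yA k V a b) f U).2.1 l = if l.1 ∈ U then 0 else sgn l.1 U • (f (insert l.1 U)).1 := by
  rw [D_apply, Prod.snd_sum, Prod.fst_sum, Finset.sum_apply]
  have : ∀ i ∈ Uᶜ, (sgn i U • (yA k V a b i) (f (insert i U))).2.1 l =
      if i = l.1 then sgn l.1 U • (f (insert l.1 U)).1 else 0 := by
    intro i _
    rw [yA_apply, Prod.smul_snd, Prod.smul_fst, Pi.smul_apply]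
    dsimp only
    split_ifs with h
    · rw [h]
    · rw [smul_zero]
  rw [Finset.sum_congr rfl this, Finset.sum_ite_eq']
  simp only [Finset.mem_compl, ite_not]

lemma DyA_3 (f : Finset ι → AA k V) (U : Finset ι) :
    (D (yA k V a b) f U).2.2.1 =
      if a.1 ∈ U then 0 else sgn a.1 U • (f (insert a.1 U)).2.1 a := by
  rw [D_apply, Prod.snd_sum, Prod.snd_sum, Prod.fst_sum]
  have : ∀ i ∈ Uᶜ, (sgn i U • (yA k V a b i) (f (insert i U))).2.2.1 =
      if i = a.1 then sgn a.1 U • (f (insert a.1 U)).2.1 a else 0 := by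
    intro i _
    rw [yA_apply, Prod.smul_snd, Prod.smul_snd, Prod.smul_fst]
    dsimp only
    split_ifs with h
    · rw [h]
    · rw [smul_zero]
  rw [Finset.sum_congr rfl this, Finset.sum_ite_eq']
  simp only [Finset.mem_compl, ite_not]

lemma DyA_4 (f : Finset ι → AA k V) (U : Finset ι) :
    (D (yA k V a b) f U).2.2.2 =
      (if a.1 ∈ U then 0 else sgn a.1 U • (f (insert a.1 U)).2.1 b) +
      (if b.1 ∈ U then 0 else sgn b.1 U • (f (insert b.1 U)).2.1 a) := by
  rw [D_apply, Prod.snd_sum, Prod.snd_sum, Prod.snd_sum]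
  have : ∀ i ∈ Uᶜ, (sgn i U • (yA k V a b i) (f (insert i U))).2.2.2 =
      (if i = a.1 then sgn a.1 U • (f (insert a.1 U)).2.1 b else 0) +
      (if i = b.1 then sgn b.1 U • (f (insert b.1 U)).2.1 a else 0) := by
    intro i _
    rw [yA_apply, Prod.smul_snd, Prod.smul_snd, Prod.smul_snd]
    dsimp only
    rw [smul_add]
    congr 1
    · split_ifs with h
      · rw [h]
      · rw [smul_zero]
    · split_ifs with h
      · rw [h]
      · rw [smul_zero]
  rw [Finset.sum_congr rfl this, Finset.sum_add_distrib, Finset.sum_ite_eq', Finset.sum_ite_eq']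
  simp only [Finset.mem_compl, ite_not]

lemma yA_comm (i j : ι) (p : AA k V) :
    yA k V a b i (yA k V a b j p) = yA k V a b j (yA k V a b i p) := by
  rw [yA_apply, yA_apply, yA_apply, yA_apply]
  ext
  · rfl
  · dsimp only
    split_ifs <;> rfl
  · dsimp only
    by_cases h1 : i = a.1 <;> by_cases h2 : j = a.1 <;> simp [h1, h2]
  · dsimp only
    by_cases h1 : i = a.1 <;> by_cases h2 : j = a.1 <;> by_cases h3 : i = b.1 <;>
      by_cases h4 : j = b.1 <;> by_cases h5 : a = b <;> simp [h1, h2, h3, h4, h5, Ne.symm]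

variable (k a b) in
/-- the map computing the rank of the differential -/
def lam (j : ℕ) : (↥(V.powersetCard (j + 1)) → AA k V) →ₗ[k]
    ((↥(V.powersetCard (j + 1)) → k) × (↥((V.erase a.1).powersetCard j) → k) ×
      (↥((V.erase a.1).powersetCard j) → k)) where
  toFun F := (fun T => (F T).1,
    fun U => (D (yA k V a b) (extV k V (j + 1) F) U.1).2.2.1,
    fun U => (D (yA k V a b) (extV k V (j + 1) F) U.1).2.2.2)
  map_add' F G := by
    simp only [map_add]
    rfl
  map_smul' c F := by
    simp only [map_smul, RingHom.id_apply]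
    rfl

lemma sgn_smul_eq_zero {M : Type*} [AddCommGroup M] {i : ι} {U : Finset ι} {m : M}
    (h : sgn i U • m = 0) : m = 0 := by
  have : sgn i U • (sgn i U • m) = 0 := by rw [h, smul_zero]
  rwa [smul_smul, sgn_mul_self, one_smul] at this

lemma ker_lam (j : ℕ) : LinearMap.ker (lam k a b j) =
    LinearMap.ker (dV (yA k V a b) V j) := by
  ext F
  rw [LinearMap.mem_ker, LinearMap.mem_ker]
  constructor
  · intro h
    have h1 : ∀ T, (extV k V (j + 1) F T).1 = 0 := by
      intro T
      rw [extV_apply]
      split_ifs with hT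
      · exact congrFun (congrArg Prod.fst h) ⟨T, hT⟩
      · rfl
    have h2 : ∀ U, a.1 ∉ U → (extV k V (j + 1) F (insert a.1 U)).2.1 a = 0 := by
      intro U haU
      by_cases hU : U ∈ (V.erase a.1).powersetCard j
      · have e := congrFun (congrArg (fun p => p.2.1) h) ⟨U, hU⟩
        change (D (yA k V a b) (extV k V (j + 1) F) U).2.2.1 = 0 at e
        rw [DyA_3, if_neg haU] at e
        exact sgn_smul_eq_zero e
      · rw [extV_apply, dif_neg]
        · rfl
        · intro h'
          apply hU
          rw [Finset.mem_powersetCard] at h' ⊢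
          rw [Finset.card_insert_of_notMem haU] at h'
          refine ⟨?_, by omega⟩
          intro i hi
          exact Finset.mem_erase.mpr ⟨fun h'' => haU (h'' ▸ hi), h'.1 (Finset.mem_insert_of_mem hi)⟩
    have h2' : ∀ T, a.1 ∈ T → (extV k V (j + 1) F T).2.1 a = 0 := by
      intro T hT
      have := h2 (T.erase a.1) (Finset.notMem_erase _ _)
      rwa [Finset.insert_erase hT] at this
    apply extV_injective (k := k)
    rw [extV_dV, map_zero]
    funext U
    refine Prod.ext (DyA_1 _ _) (Prod.ext ?_ (Prod.ext ?_ ?_))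
    · funext l
      rw [DyA_2]
      split_ifs
      · rfl
      · rw [h1, smul_zero]; rfl
    · rw [DyA_3]
      split_ifs with haU
      · rfl
      · rw [h2 U haU, smul_zero]; rfl
    · by_cases haU : a.1 ∈ U
      · rw [DyA_4, if_pos haU, zero_add]
        split_ifs
        · rfl
        · rw [h2' _ (Finset.mem_insert_of_mem haU), smul_zero]; rfl
      · by_cases hU : U ∈ (V.erase a.1).powersetCard j
        · exact congrFun (congrArg (fun p => p.2.2) h) ⟨U, hU⟩
        · have : D (yA k V a b) (extV k V (j + 1) F) U = 0 := by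
            rw [Finset.mem_powersetCard, not_and_or] at hU
            rcases hU with hU | hU
            · apply D_supp (extV_supp _ _ _)
              intro hUV
              apply hU
              intro i hi
              exact Finset.mem_erase.mpr ⟨fun h'' => haU (h'' ▸ hi), hUV hi⟩
            · exact D_hom (extV_hom _ _ _) _ hU
          rw [this]
          rfl
  · intro h
    have hD : D (yA k V a b) (extV k V (j + 1) F) = 0 := by
      rw [← extV_dV, h, map_zero]
    refine Prod.ext ?_ (Prod.ext ?_ ?_)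
    · funext T
      obtain ⟨T, hT⟩ := T
      have hT' := Finset.mem_powersetCard.mp hT
      have hne : T.Nonempty := by
        rw [← Finset.card_pos]; omega
      obtain ⟨l, hl⟩ := hne
      have e : (D (yA k V a b) (extV k V (j + 1) F) (T.erase l)).2.1 ⟨l, hT'.1 hl⟩ = 0 := by
        rw [hD]; rfl
      rw [DyA_2, if_neg (Finset.notMem_erase l T)] at e
      have e2 := sgn_smul_eq_zero e
      dsimp only at e2
      rw [Finset.insert_erase hl, extV_apply, dif_pos hT] at e2
      exact e2
    · funext U
      show (D (yA k V a b) (extV k V (j + 1) F) U.1).2.2.1 = 0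
      rw [hD]; rfl
    · funext U
      show (D (yA k V a b) (extV k V (j + 1) F) U.1).2.2.2 = 0
      rw [hD]; rfl

lemma lam_surjective (hab : a ≠ b) (j : ℕ) : Function.Surjective (lam k a b j) := by
  classical
  rintro ⟨p, q, r⟩
  let g : Finset ι → AA k V := fun T =>
    if hT : T ∈ V.powersetCard (j + 1) then
      (p ⟨T, hT⟩, fun l => if ha : a.1 ∈ T then
        (if hm : T.erase a.1 ∈ (V.erase a.1).powersetCard j then
          (if l = a then sgn a.1 (T.erase a.1) • q ⟨T.erase a.1, hm⟩
            else if l = b then sgn a.1 (T.erase a.1) • r ⟨T.erase a.1, hm⟩ else 0) else 0) else 0, 0, 0)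
    else 0
  have hg1 : Hom (j + 1) g := by
    intro T hT
    dsimp only [g]
    rw [dif_neg]
    rw [Finset.mem_powersetCard]
    exact fun h => hT h.2
  have hg2 : Supp V g := by
    intro T hT
    dsimp only [g]
    rw [dif_neg]
    rw [Finset.mem_powersetCard]
    exact fun h => hT h.1
  have hmem : ∀ U : Finset ι, U ∈ (V.erase a.1).powersetCard j →
      a.1 ∉ U ∧ insert a.1 U ∈ V.powersetCard (j + 1) := by
    intro U hU
    rw [Finset.mem_powersetCard] at hU
    have haU : a.1 ∉ U := fun h => Finset.notMem_erase a.1 V (hU.1 h)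
    refine ⟨haU, ?_⟩
    rw [Finset.mem_powersetCard, Finset.card_insert_of_notMem haU, hU.2]
    refine ⟨?_, rfl⟩
    intro i hi
    rcases Finset.mem_insert.mp hi with rfl | hi
    · exact a.2
    · exact Finset.mem_of_mem_erase (hU.1 hi)
  have hga : ∀ U : Finset ι, ∀ hU : U ∈ (V.erase a.1).powersetCard j,
      (g (insert a.1 U)).2.1 a = sgn a.1 U • q ⟨U, hU⟩ := by
    intro U hU
    obtain ⟨haU, hin⟩ := hmem U hU
    dsimp only [g]
    rw [dif_pos hin]
    dsimp only
    rw [dif_pos (Finset.mem_insert_self _ _)]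
    have he : (insert a.1 U).erase a.1 = U := Finset.erase_insert haU
    rw [dif_pos (by rw [he]; exact hU), if_pos rfl]
    simp only [he]
  have hgb : ∀ U : Finset ι, ∀ hU : U ∈ (V.erase a.1).powersetCard j,
      (g (insert a.1 U)).2.1 b = sgn a.1 U • r ⟨U, hU⟩ := by
    intro U hU
    obtain ⟨haU, hin⟩ := hmem U hU
    dsimp only [g]
    rw [dif_pos hin]
    dsimp only
    rw [dif_pos (Finset.mem_insert_self _ _)]
    have he : (insert a.1 U).erase a.1 = U := Finset.erase_insert haU
    rw [dif_pos (by rw [he]; exact hU), if_neg hab.symm, if_pos rfl]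
    simp only [he]
  have hgc : ∀ T : Finset ι, a.1 ∉ T → (g T).2.1 a = 0 := by
    intro T hT
    dsimp only [g]
    split_ifs
    · rfl
    · rfl
  refine ⟨resV k V (j + 1) g, ?_⟩
  have hext := extV_resV V (j + 1) hg1 hg2 (k := k)
  refine Prod.ext ?_ (Prod.ext ?_ ?_)
  · funext T
    show (g T.1).1 = p T
    dsimp only [g]
    rw [dif_pos T.2]
  · funext U
    show (D (yA k V a b) (extV k V (j + 1) (resV k V (j + 1) g)) U.1).2.2.1 = q U
    obtain ⟨haU, _⟩ := hmem U.1 U.2
    rw [hext, DyA_3, if_neg haU, hga U.1 U.2, smul_smul, sgn_mul_self, one_smul]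
  · funext U
    show (D (yA k V a b) (extV k V (j + 1) (resV k V (j + 1) g)) U.1).2.2.2 = r U
    obtain ⟨haU, _⟩ := hmem U.1 U.2
    rw [hext, DyA_4, if_neg haU, hgb U.1 U.2, smul_smul, sgn_mul_self, one_smul]
    split_ifs with hbU
    · rw [add_zero]
    · rw [hgc, smul_zero, add_zero]
      rw [Finset.mem_insert, not_or]
      exact ⟨fun h => hab (Subtype.ext h), haU⟩

lemma finrank_chains (j : ℕ) : Module.finrank k (↥(V.powersetCard j) → AA k V) =
    V.card.choose j * (V.card + 3) := by
  rw [Module.finrank_pi_fintype]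
  simp
  left
  ring

lemma finrank_cod (j : ℕ) : Module.finrank k ((↥(V.powersetCard (j + 1)) → k) ×
    (↥((V.erase a.1).powersetCard j) → k) × (↥((V.erase a.1).powersetCard j) → k)) =
    V.card.choose (j + 1) + 2 * (V.card - 1).choose j := by
  rw [Module.finrank_prod, Module.finrank_prod, Module.finrank_pi_fintype,
    Module.finrank_pi_fintype]
  simp
  ring

lemma finrank_ker_dV (hab : a ≠ b) (j : ℕ) :
    V.card.choose (j + 1) + 2 * (V.card - 1).choose j +
      Module.finrank k (LinearMap.ker (dV (yA k V a b) V j)) =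
    V.card.choose (j + 1) * (V.card + 3) := by
  have h1 := LinearMap.finrank_range_add_finrank_ker (lam k a b j)
  rw [LinearMap.range_eq_top.mpr (lam_surjective hab j), finrank_top, finrank_cod, ker_lam,
    finrank_chains] at h1
  exact h1

lemma finrank_range_dV (hab : a ≠ b) (j : ℕ) :
    Module.finrank k (LinearMap.range (dV (yA k V a b) V j)) =
    V.card.choose (j + 1) + 2 * (V.card - 1).choose j := by
  have h1 := LinearMap.finrank_range_add_finrank_ker (dV (yA k V a b) V j)
  have h2 := finrank_ker_dV (k := k) hab j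
  rw [finrank_chains] at h1
  omega

theorem finrank_HV (hab : a ≠ b) (j : ℕ) :
    Module.finrank k (HV (yA k V a b) V j) = (j + 1) * (V.card + 1).choose (j + 2) := by
  have hle : LinearMap.range (dV (yA k V a b) V (j + 1)) ≤
      LinearMap.ker (dV (yA k V a b) V j) := by
    rintro _ ⟨f, rfl⟩
    exact dV_dV (yA k V a b) (yA_comm (k := k) (V := V) (a := a) (b := b)) V j f
  have h1 := Submodule.finrank_quotient_add_finrank
    ((LinearMap.range (dV (yA k V a b) V (j + 1))).submoduleOf
      (LinearMap.ker (dV (yA k V a b) V j)))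
  rw [(Submodule.submoduleOfEquivOfLe hle).finrank_eq, finrank_range_dV hab] at h1
  have h2 := finrank_ker_dV (k := k) hab j
  have hv : 1 ≤ V.card := Finset.card_pos.mpr ⟨a.1, a.2⟩
  obtain ⟨v, hv'⟩ : ∃ v, V.card = v + 1 := ⟨V.card - 1, by omega⟩
  rw [hv'] at h1 h2 ⊢
  rw [Nat.add_sub_cancel] at h1 h2
  have e1 : (v + 1).choose (j + 1) = v.choose j + v.choose (j + 1) := Nat.choose_succ_succ v j
  have e2 : (v + 1 + 1).choose (j + 2) = (v + 1).choose (j + 1) + (v + 1).choose (j + 2) :=
    Nat.choose_succ_succ (v + 1) (j + 1)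
  have e3 : (j + 2) * (v + 1).choose (j + 2) + (j + 1) * (v + 1).choose (j + 1) =
      (v + 1) * (v + 1).choose (j + 1) := by
    rcases le_or_gt (j + 1) (v + 1) with h | h
    · have := Nat.choose_succ_right_eq (v + 1) (j + 1)
      obtain ⟨c, hc⟩ := Nat.exists_eq_add_of_le h
      have hc' : v + 1 - (j + 1) = c := by omega
      rw [hc'] at this
      rw [show (j + 2) * (v + 1).choose (j + 2) = (v + 1).choose (j + 1 + 1) * (j + 1 + 1) by ring,
        this]
      rw [show (v + 1) * (v + 1).choose (j + 1) = (j + 1 + c) * (v + 1).choose (j + 1) by rw [← hc]]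
      ring
    · rw [Nat.choose_eq_zero_of_lt (by omega : v + 1 < j + 2), Nat.choose_eq_zero_of_lt h]
      simp
  rw [e2]
  nlinarith [h1, h2, e1, e2, e3]

end Pool.Agent.MPc132d1
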