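import Pool.Agent.Lib.MP_c132d1_al.Rank

/-!
The semigroup rings.
-/

set_option linter.unusedSectionVars false

namespace Pool.Agent.MPc132d1

open Finset MvPolynomial CategoryTheory

universe u

/-- The index set `J_{m,n} = {0, …, e-1} \ {m, n}`. -/
abbrev J (e m n : ℕ) : Finset ℕ := Finset.range e \ {m, n}

/-- The polynomial ring `R_{m,n} = k[X_i : i ∈ J_{m,n}]`. -/
abbrev R (k : Type u) [Field k] (e m n : ℕ) : Type u := MvPolynomial ↥(J e m n) k

/-- The `k`-algebra map `R_{m,n} → k[t]`, `X_i ↦ t^(e+i)`. -/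
noncomputable def toPoly (k : Type u) [Field k] (e m n : ℕ) : R k e m n →ₐ[k] Polynomial k :=
  MvPolynomial.aeval fun i => (Polynomial.X : Polynomial k) ^ (e + i.1)

/-- The defining ideal `I_{m,n}`. -/
noncomputable abbrev Idl (k : Type u) [Field k] (e m n : ℕ) : Ideal (R k e m n) :=
  RingHom.ker (toPoly k e m n)

section

variable (k : Type u) [Field k] (e n : ℕ) 

/-- membership in the semigroup `S_{2,n}` -/
def InS (e n s : ℕ) : Prop := s = 0 ∨ (∃ i ∈ J e 2 n, s = e + i) ∨ 2 * e ≤ s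

lemma InS_add {e n i s : ℕ} (hi : i ∈ J e 2 n) (hs : InS e n s) : InS e n (s + (e + i)) := by
  rcases hs with rfl | ⟨l, hl, rfl⟩ | h
  · exact Or.inr (Or.inl ⟨i, hi, by omega⟩)
  · exact Or.inr (Or.inr (by omega))
  · exact Or.inr (Or.inr (by omega))

lemma toPoly_supp (p : R k e 2 n) : ∀ s, (toPoly k e 2 n p).coeff s ≠ 0 → InS e n s := by
  induction p using MvPolynomial.induction_on with
  | C a =>
    intro s hs
    left
    by_contra h
    apply hs
    rw [toPoly, MvPolynomial.aeval_C, Polynomial.algebraMap_eq, Polynomial.coeff_C, if_neg h]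
  | add p q hp hq =>
    intro s hs
    rw [map_add, Polynomial.coeff_add] at hs
    by_cases h : (toPoly k e 2 n p).coeff s = 0
    · rw [h, zero_add] at hs
      exact hq s hs
    · exact hp s h
  | mul_X p i hp =>
    intro s hs
    rw [map_mul] at hs
    have : toPoly k e 2 n (X i) = Polynomial.X ^ (e + i.1) := by
      rw [toPoly, MvPolynomial.aeval_X]
    rw [this, Polynomial.coeff_mul_X_pow'] at hs
    split_ifs at hs with h
    · have h2 := InS_add i.2 (hp _ hs)
      rwa [Nat.sub_add_cancel h] at h2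
    · exact absurd rfl hs

variable {k e n}

lemma mem_J {i : ℕ} : i ∈ J e 2 n ↔ i < e ∧ i ≠ 2 ∧ i ≠ n := by
  simp [J]

lemma X_pow_range (he : 6 ≤ e) (hn : n = 4 ∨ n = 5) (s : ℕ) (hs : InS e n s) :
    ∃ p : R k e 2 n, toPoly k e 2 n p = Polynomial.X ^ s := by
  have hX : ∀ i (hi : i ∈ J e 2 n), toPoly k e 2 n (X ⟨i, hi⟩) = Polynomial.X ^ (e + i) := by
    intro i hi
    rw [toPoly, MvPolynomial.aeval_X]
  have hJ0 : 0 ∈ J e 2 n := mem_J.mpr (by omega)
  have hJ1 : 1 ∈ J e 2 n := mem_J.mpr (by omega)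
  have hJb : n - 1 ∈ J e 2 n := mem_J.mpr (by omega)
  rcases hs with rfl | ⟨i, hi, rfl⟩ | h
  · exact ⟨1, by rw [map_one, pow_zero]⟩
  · exact ⟨_, hX i hi⟩
  · induction s using Nat.strong_induction_on with
    | _ s ih =>
      rcases lt_or_ge s (3 * e) with h3 | h3
      · by_cases hr : s - 2 * e ∈ J e 2 n
        · refine ⟨X ⟨0, hJ0⟩ * X ⟨_, hr⟩, ?_⟩
          rw [map_mul, hX, hX, ← pow_add]
          congr 1
          omega
        · rw [mem_J] at hr
          by_cases h2 : s = 2 * e + 2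
          · refine ⟨X ⟨1, hJ1⟩ * X ⟨1, hJ1⟩, ?_⟩
            rw [map_mul, hX, ← pow_add]
            congr 1
            omega
          · refine ⟨X ⟨1, hJ1⟩ * X ⟨n - 1, hJb⟩, ?_⟩
            rw [map_mul, hX, hX, ← pow_add]
            congr 1
            omega
      · obtain ⟨p, hp⟩ := ih (s - e) (by omega) (by omega)
        refine ⟨X ⟨0, hJ0⟩ * p, ?_⟩
        rw [map_mul, hX, hp, ← pow_add]
        congr 1
        omega

lemma mem_range_toPoly (he : 6 ≤ e) (hn : n = 4 ∨ n = 5) (q : Polynomial k)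
    (hq : ∀ s, q.coeff s ≠ 0 → InS e n s) : ∃ p : R k e 2 n, toPoly k e 2 n p = q := by
  have h : q ∈ (toPoly k e 2 n).range := by
    rw [q.as_sum_support_C_mul_X_pow]
    refine sum_mem fun s hs => ?_
    obtain ⟨p, hp⟩ := X_pow_range (k := k) he hn s (hq s (Polynomial.mem_support_iff.mp hs))
    refine ⟨MvPolynomial.C (q.coeff s) * p, ?_⟩
    show toPoly k e 2 n _ = _
    rw [map_mul, hp]
    congr 1
    rw [toPoly, MvPolynomial.aeval_C, Polynomial.algebraMap_eq]
  exact h

end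

section

variable (k : Type u) [Field k] (e n : ℕ)

/-- the embedding of `R/I` in `k[t]` -/
noncomputable def theta : (R k e 2 n ⧸ Idl k e 2 n) →ₐ[k] Polynomial k :=
  Ideal.kerLiftAlg (toPoly k e 2 n)

lemma theta_mk (p : R k e 2 n) : theta k e n (Ideal.Quotient.mk _ p) = toPoly k e 2 n p :=
  Ideal.kerLiftAlg_mk _ _

lemma theta_inj : Function.Injective (theta k e n) := Ideal.kerLiftAlg_injective _

lemma theta_X (i : ↥(J e 2 n)) (q : R k e 2 n ⧸ Idl k e 2 n) :
    theta k e n ((X i : R k e 2 n) • q) = Polynomial.X ^ (e + i.1) * theta k e n q := by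
  obtain ⟨p, rfl⟩ := Ideal.Quotient.mk_surjective q
  rw [← smul_eq_mul, ← Ideal.Quotient.mk_eq_mk, ← Submodule.Quotient.mk_smul,
    Ideal.Quotient.mk_eq_mk, theta_mk, Ideal.Quotient.mk_eq_mk, theta_mk, smul_eq_mul, map_mul,
    smul_eq_mul]
  congr 1
  rw [toPoly, MvPolynomial.aeval_X]

lemma theta_supp (q : R k e 2 n ⧸ Idl k e 2 n) (s : ℕ) (h : (theta k e n q).coeff s ≠ 0) :
    InS e n s := by
  obtain ⟨p, rfl⟩ := Ideal.Quotient.mk_surjective q
  rw [theta_mk] at h
  exact toPoly_supp k e n p s h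

variable {k e n}

lemma theta_range (he : 6 ≤ e) (hn : n = 4 ∨ n = 5) (q : Polynomial k)
    (hq : ∀ s, q.coeff s ≠ 0 → InS e n s) : ∃ p, theta k e n p = q := by
  obtain ⟨p, hp⟩ := mem_range_toPoly he hn q hq
  exact ⟨Ideal.Quotient.mk _ p, by rw [theta_mk, hp]⟩

variable (k e n)

/-- the reduction map -/
noncomputable def gam (V : Finset ↥(J e 2 n)) : (R k e 2 n ⧸ Idl k e 2 n) →ₗ[k] AA k V where
  toFun q := ((theta k e n q).coeff 0, fun l => (theta k e n q).coeff (e + l.1.1),
    (theta k e n q).coeff (2 * e + 2), (theta k e n q).coeff (2 * e + n))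
  map_add' p q := by
    simp only [map_add, Polynomial.coeff_add]
    rfl
  map_smul' c q := by
    simp only [map_smul, Polynomial.coeff_smul, RingHom.id_apply]
    rfl

lemma gam_apply (V : Finset ↥(J e 2 n)) (q : R k e 2 n ⧸ Idl k e 2 n) : gam k e n V q =
    ((theta k e n q).coeff 0, fun l => (theta k e n q).coeff (e + l.1.1),
    (theta k e n q).coeff (2 * e + 2), (theta k e n q).coeff (2 * e + n)) := rfl

end

end Pool.Agent.MPc132d1
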