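import Pool.Agent.Lib.MP_c132d1_al.Cat

/-!
`Tor` against the residue field is Koszul homology.
-/

set_option linter.unusedSectionVars false

namespace Pool.Agent.MPc132d1

open Finset MvPolynomial CategoryTheory MonoidalCategory

universe u

variable (ι : Type) [Fintype ι] [LinearOrder ι] (k : Type u) [Field k]
variable (N : Type u) [AddCommGroup N] [Module (MvPolynomial ι k) N]

/-- `N ⊗ K_j ≃ (Sub ι j → N)` -/
noncomputable def te (j : ℕ) : TensorProduct (MvPolynomial ι k) N (Sub ι j → MvPolynomial ι k)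
    ≃ₗ[MvPolynomial ι k] (Sub ι j → N) :=
  TensorProduct.piScalarRight (MvPolynomial ι k) (MvPolynomial ι k) N (Sub ι j)

lemma te_tmul (j : ℕ) (n : N) (f : Sub ι j → MvPolynomial ι k) :
    te ι k N j (n ⊗ₜ f) = fun T => f T • n := by
  unfold te
  rw [TensorProduct.piScalarRight_apply, TensorProduct.piScalarRightHom_tmul]

lemma te_comm (j : ℕ) :
    (te ι k N j).toLinearMap ∘ₗ LinearMap.lTensor N (dk (xm k (MvPolynomial ι k)) j) =
      dk (xm k N) j ∘ₗ (te ι k N (j + 1)).toLinearMap := by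
  apply TensorProduct.ext'
  intro n f
  simp only [LinearMap.comp_apply, LinearEquiv.coe_coe, LinearMap.lTensor_tmul]
  rw [te_tmul, te_tmul]
  funext U
  rw [dk_apply, dk_apply, D_apply, D_apply, Finset.sum_smul]
  refine Finset.sum_congr rfl fun i _ => ?_
  rw [xm_apply, xm_apply, ext_apply, ext_apply]
  split_ifs with h
  · rw [smul_eq_mul, smul_assoc, mul_smul]
  · simp

/-- The short complex of Koszul chains with values in `N`. -/
noncomputable def KS (j : ℕ) : ShortComplex (ModuleCat.{u} (MvPolynomial ι k)) :=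
  ShortComplex.mk (ModuleCat.ofHom (dk (xm (ι := ι) k N) (j + 1)))
    (ModuleCat.ofHom (dk (xm (ι := ι) k N) j)) (by
      ext1
      apply LinearMap.ext
      intro f
      exact dk_dk (xm (ι := ι) k N) (xm_comm (ι := ι) (k := k) N) j f)

/-- the complex `N ⊗ K` -/
noncomputable abbrev NK : ChainComplex (ModuleCat.{u} (MvPolynomial ι k)) ℕ :=
  (((tensoringLeft (ModuleCat.{u} (MvPolynomial ι k))).obj
    (ModuleCat.of (MvPolynomial ι k) N)).mapHomologicalComplex _).obj (Kcx ι k)

lemma NK_d (j : ℕ) : ((NK ι k N).d (j + 1) j) =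
    ModuleCat.ofHom (LinearMap.lTensor N (dk (xm k (MvPolynomial ι k)) j)) := by
  show (ModuleCat.of (MvPolynomial ι k) N) ◁ (Kcx ι k).d (j + 1) j = _
  rw [Kcx_d]
  rfl

/-- isomorphism of short complexes -/
noncomputable def scIso (j : ℕ) : (NK ι k N).sc (j + 1) ≅ KS ι k N j :=
  (NK ι k N).isoSc' (j + 2) (j + 1) j (by simp) (by simp) ≪≫
    ShortComplex.isoMk (te ι k N (j + 2)).toModuleIso (te ι k N (j + 1)).toModuleIso
      (te ι k N j).toModuleIso
      (by
        show _ ≫ ModuleCat.ofHom (dk (xm (ι := ι) k N) (j + 1)) = (NK ι k N).d (j + 2) (j + 1) ≫ _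
        rw [NK_d]
        ext1
        exact (te_comm ι k N (j + 1)).symm)
      (by
        show _ ≫ ModuleCat.ofHom (dk (xm (ι := ι) k N) j) = (NK ι k N).d (j + 1) j ≫ _
        rw [NK_d]
        ext1
        exact (te_comm ι k N j).symm)

/-- `Tor_{j+1}(N, k)` as explicit Koszul homology. -/
noncomputable def torIso (j : ℕ) :
    ((Tor (ModuleCat.{u} (MvPolynomial ι k)) (j + 1)).obj (ModuleCat.of (MvPolynomial ι k) N)).obj
      (ModuleCat.of (MvPolynomial ι k) (MvPolynomial ι k ⧸ maxIdeal ι k)) ≅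
    ModuleCat.of (MvPolynomial ι k) (LinearMap.ker (KS ι k N j).g.hom ⧸
      LinearMap.range (KS ι k N j).moduleCatToCycles) :=
  (Kres ι k).isoLeftDerivedObj ((tensoringLeft (ModuleCat.{u} (MvPolynomial ι k))).obj
    (ModuleCat.of (MvPolynomial ι k) N)) (j + 1) ≪≫
  ShortComplex.homologyMapIso (scIso ι k N j) ≪≫ (KS ι k N j).moduleCatHomologyIso

end Pool.Agent.MPc132d1
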